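import Pool.Agent.MP_5168f5_an.H75T.SetB
import Pool.Agent.MP_5168f5_an.H39F.Main

/-! A dense graph of pairs near a set without long segments in a block has an edge with a small
value. -/

namespace Pool.Agent.MP_5168f5_an.H75T

open H19 H17S H17F H95F H39F

variable {N : ℕ} {Ω : Type} {S : Set (Fin N)}

/-- A vector whose multiples by a likely set of light scalars are near a level is short. -/
theorem shortB {U : Set (V N)} {n q q' A : ℕ} {L₀ e μ L m β : ℝ} (h : Line2B S U n q L₀ e)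
    (hq : q' ≤ q) (v : V N) (h0 : Sup S v) (P : FP Ω) (X : Ω → ℤ) (E : Ω → Prop) (hA : 1 ≤ A)
    (hμ : 1 ≤ μ) (hL : 1 ≤ L) (hL0 : L₀ ≤ L) (hm : 0 ≤ m) (hv : ‖v‖ ≤ A * n) (hE : β ≤ pb P E)
    (hX : ∀ ω ∈ P.S, E ω → |X ω| ≤ A * n ∧ pv P X (X ω) ≤ m)
    (hnr : ∀ a ∈ P.S, ∀ b ∈ P.S, E a → E b → Nr U q' μ ((((X a : ℝ) - X b) / n) • v))
    (hnum : 3 * A ^ 2 * (n * L ^ (-e)) * m < β) : ‖v‖ ≤ A * μ * L := by
  classical
  by_contra hn
  have h1 := h q' hq A v μ L ((P.S.filter E).image X) h0 hA hμ hL hL0 (not_le.1 hn).le hv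
    (fun t ht => by
      obtain ⟨a, ha, rfl⟩ := Finset.mem_image.1 ht
      exact (hX a (Finset.mem_filter.1 ha).1 (Finset.mem_filter.1 ha).2).1)
    (fun t ht t' ht' => by
      obtain ⟨a, ha, rfl⟩ := Finset.mem_image.1 ht
      obtain ⟨b, hb, rfl⟩ := Finset.mem_image.1 ht'
      rw [Finset.mem_filter] at ha hb
      exact hnr a ha.1 b hb.1 ha.2 hb.2)
  have h2 := count P X E ((P.S.filter E).image X) hm fun ω hω hE =>
    ⟨Finset.mem_image_of_mem X (Finset.mem_filter.2 ⟨hω, hE⟩), (hX ω hω hE).2⟩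
  have h3 := mul_le_mul_of_nonneg_right h1 hm
  linarith

/-- A likely set of values of `d` with a small difference set. -/
theorem gamB {P : FP Ω} {d w : Ω → D N} {U : Set (V N)} {n k h q j : ℕ} {e : ℝ}
    {G : D N → D N → Prop} (hL : Line2B S U n q k e) (hq : 4 ≤ q) (hb : Bnd P d w n k)
    (hS : ∀ a ∈ P.S, Sup S (gR N (d a))) (hk : 16 ≤ k)
    (hn : 1 ≤ n) (hn' : n ≤ k ^ (2 * h)) (hj : 1 ≤ j) (hje : (6 : ℝ) ≤ j * e)
    (hG : ∀ a ∈ P.S, ∀ b ∈ P.S, G (d a) (w b) → (∃ u ∈ U, ‖MM n (d a) (w b) - u‖ ≤ k) ∧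
      pv P (fun ω => (w ω).1) (w b).1 ≤ k / n)
    (hd : 1 ≤ k * den P d w G ^ (8 * (h + 1) * (N + 1) + 2)) :
    ∃ Γ ⊆ P.S.image d, ∃ T : Finset (D N), (1 : ℝ) / (2 * k) ≤ pb P (fun a => d a ∈ Γ) ∧
      (∀ x ∈ Γ, (1 : ℝ) / k ≤ pb P fun b => G x (w b)) ∧ T.card ≤ k ^ (N * (5 + j) + 1) * n ∧
      ∀ a ∈ Γ, ∀ b ∈ Γ, a - b ∈ T := by
  have hk1 : (16 : ℝ) ≤ k := by exact_mod_cast hk
  have hn1 : (1 : ℝ) ≤ n := by exact_mod_cast hn
  obtain ⟨Γ, hΓ, h1, h2⟩ := drc P P d (fun x b => G x (w b)) (P.S.image d)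
    (fun a ha => Finset.mem_image_of_mem d ha) (8 * (h + 1) * (N + 1) + 2) (u := 1 / (2 * k))
    (δ := 1 / k) (by positivity) (by positivity) (by
      have : 2 * (1 / (2 * k)) = (1 : ℝ) / k := by field_simp
      rw [this, div_le_iff₀' (by positivity)]
      exact hd) (card_val hb hk hn hn')
  have hv : ∀ x ∈ Γ, ∃ a ∈ P.S, d a = x := fun x hx => Finset.mem_image.1 (hΓ hx)
  refine ⟨Γ, hΓ, (Γ ×ˢ Γ).image fun x => x.1 - x.2, h1, fun x hx =>
    (h2 x hx x hx x hx x hx).trans (pb_mono P fun b _ hb => hb.1), ?_, fun a ha b hb =>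
      Finset.mem_image.2 ⟨(a, b), Finset.mem_product.2 ⟨ha, hb⟩, rfl⟩⟩
  have h3 := card_diff ((Γ ×ˢ Γ).image fun x => x.1 - x.2) (2 * n) (k ^ (4 + j)) (fun x hx => by
    obtain ⟨y, hy, rfl⟩ := Finset.mem_image.1 hx
    obtain ⟨a, ha, e1⟩ := hv _ (Finset.mem_product.1 hy).1
    obtain ⟨b, hb', e2⟩ := hv _ (Finset.mem_product.1 hy).2
    have a1 := abs_le.1 (hb.z a ha)
    have a2 := abs_le.1 (hb.z b hb')
    rw [Prod.fst_sub, ← e1, ← e2, abs_le]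
    push_cast
    omega) fun x hx y hy hxy => by
      obtain ⟨⟨x₁, x₂⟩, hx', rfl⟩ := Finset.mem_image.1 hx
      obtain ⟨⟨x₃, x₄⟩, hy', rfl⟩ := Finset.mem_image.1 hy
      rw [Finset.mem_product] at hx' hy'
      have a0 := h2 x₁ hx'.1 x₂ hx'.2 x₃ hy'.1 x₄ hy'.2
      obtain ⟨a₁, m₁, rfl⟩ := hv x₁ hx'.1
      obtain ⟨a₂, m₂, rfl⟩ := hv x₂ hx'.2
      obtain ⟨a₃, m₃, rfl⟩ := hv x₃ hy'.1
      obtain ⟨a₄, m₄, rfl⟩ := hv x₄ hy'.2
      simp only at hxy ⊢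
      have a1 : ∀ b ∈ P.S, G (d a₁) (w b) ∧ G (d a₂) (w b) ∧ G (d a₃) (w b) ∧ G (d a₄) (w b) →
          Nr U (1 + 1) (k + k + (k + k))
            ((((w b).1 : ℝ) / n) • (gR N (d a₁ - d a₂) - gR N (d a₃ - d a₄))) := by
        rintro b hb' ⟨g₁, g₂, g₃, g₄⟩
        obtain ⟨u₁, p₁, q₁⟩ := (hG a₁ m₁ b hb' g₁).1
        obtain ⟨u₂, p₂, q₂⟩ := (hG a₂ m₂ b hb' g₂).1
        obtain ⟨u₃, p₃, q₃⟩ := (hG a₃ m₃ b hb' g₃).1
        obtain ⟨u₄, p₄, q₄⟩ := (hG a₄ m₄ b hb' g₄).1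
        have a2 := (nr_pair p₁ p₂ q₁ q₂).sub (nr_pair p₃ p₄ q₃ q₄)
        rw [← MM_sub, ← MM_sub] at a2
        have e : (((w b).1 : ℝ) / n) • (gR N (d a₁ - d a₂) - gR N (d a₃ - d a₄)) =
            MM n (d a₁ - d a₂) (w b) - MM n (d a₃ - d a₄) (w b) := by
          unfold MM
          rw [hxy, smul_sub]
          abel
        rw [e]; exact a2
      have a3 : (k : ℝ) ≤ k ^ j := le_self_pow₀ (by linarith) (by omega)
      have a4 := shortB hL hq (gR N (d a₁ - d a₂) - gR N (d a₃ - d a₄)) (by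
          rw [map_sub, map_sub]
          exact ((hS a₁ m₁).sub (hS a₂ m₂)).sub ((hS a₃ m₃).sub (hS a₄ m₄))) P (fun ω => (w ω).1) _
        (A := 4 * k) (μ := k + k + (k + k) + (k + k + (k + k))) (L := k ^ j) (m := k / n)
        (by omega) (by linarith) (by linarith) a3 (by positivity) (by
          rw [map_sub, map_sub]
          have b1 := norm_sub_le (gR N (d a₁) - gR N (d a₂)) (gR N (d a₃) - gR N (d a₄))
          have b2 := norm_sub_le (gR N (d a₁)) (gR N (d a₂))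
          have b3 := norm_sub_le (gR N (d a₃)) (gR N (d a₄))
          have := hb.g a₁ m₁
          have := hb.g a₂ m₂
          have := hb.g a₃ m₃
          have := hb.g a₄ m₄
          push_cast
          linarith) a0 (fun b hb' g => ⟨by
            refine (hb.r b hb').trans ?_
            push_cast
            exact mul_le_mul_of_nonneg_right (by omega) (by positivity), (hG a₁ m₁ b hb' g.1).2⟩)
        (fun a ha b hb' ga gb => by
          have := (a1 a ha ga).sub (a1 b hb' gb)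
          rw [← sub_smul, ← sub_div] at this
          exact this) (by
          have b1 := rpow_neg_le (k := k) (i := 6) (j := j) (e := e) (by linarith)
            (by exact_mod_cast hje)
          have b2 : 3 * ((4 * k : ℕ) : ℝ) ^ 2 * (n * ((k : ℝ) ^ j) ^ (-e)) * (k / n) =
              48 * k ^ 3 * ((k : ℝ) ^ j) ^ (-e) := by
            push_cast; field_simp; ring
          rw [b2]
          refine lt_of_le_of_lt (mul_le_mul_of_nonneg_left b1 (by positivity)) ?_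
          rw [← div_eq_mul_inv, div_lt_div_iff₀ (by positivity) (by positivity)]
          have b3 : (0 : ℝ) < k ^ 4 := by positivity
          have b4 : (k : ℝ) ^ 6 = k ^ 4 * (k * k) := by ring
          have b5 : (256 : ℝ) ≤ k * k := by nlinarith
          nlinarith)
      refine a4.trans ?_
      push_cast
      have b3 : (0 : ℝ) < k ^ 2 * k ^ j := by positivity
      have b4 : (k : ℝ) ^ (4 + j) = k ^ 2 * k ^ j * (k * k) := by ring
      have b5 : (256 : ℝ) ≤ k * k := by nlinarith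
      nlinarith
  refine h3.trans ?_
  have h4 : 2 * k ^ (4 + j) + 1 ≤ k ^ (5 + j) := by
    have e : k ^ (5 + j) = k * k ^ (4 + j) := by ring
    have a1 : 16 * k ^ (4 + j) ≤ k * k ^ (4 + j) := Nat.mul_le_mul_right _ hk
    have a2 : 0 < k ^ (4 + j) := by positivity
    omega
  have h5 : 2 * (2 * n) + 1 ≤ k * n := by
    have : 16 * n ≤ k * n := Nat.mul_le_mul_right _ hk
    omega
  have e : k ^ (N * (5 + j) + 1) * n = (k ^ (5 + j)) ^ N * (k * n) := by ring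
  rw [e]
  exact Nat.mul_le_mul (Nat.pow_le_pow_left h4 N) h5

/-- The last step: a vertex with many neighbours near a line. -/
theorem lastB {P : FP Ω} {w : Ω → D N} {x : D N} {U : Set (V N)} {n k K q j C : ℕ} {e ν : ℝ}
    {γ : V N} {E : Ω → Prop} (hL : Line2B S U n q k e) (hq : 1 ≤ q) (hn : 1 ≤ n) (hk : 16 ≤ k)
    (hx0 : Sup S (gR N x)) (hγ0 : Sup S γ)
    (hK : k ^ 4 ≤ K) (hj : 1 ≤ j) (hje : ((2 * C + 6 : ℕ) : ℝ) ≤ j * e) (hν : 1 ≤ ν)
    (hz : |x.1| ≤ n) (hg : ‖gR N x‖ ≤ k * n) (hγ : ‖γ‖ ≤ (K : ℝ) ^ C)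
    (hE : (1 : ℝ) / (2 * k) * (1 / k) / 2 ≤ pb P E)
    (h : ∀ b ∈ P.S, E b → |(w b).1| ≤ 2 * n ∧ pv P (fun ω => (w ω).1) (w b).1 ≤ k / n ∧
      (∃ u ∈ U, ‖MM n x (w b) - u‖ ≤ k) ∧ ‖gR N (w b) + ((w b).1 : ℝ) • γ‖ ≤ ν) :
    ∀ b ∈ P.S, E b → ‖MM n x (w b)‖ ≤ ν * (K : ℝ) ^ (C + 4 + j) := by
  have hk1 : (16 : ℝ) ≤ k := by exact_mod_cast hk
  have hn1 : (1 : ℝ) ≤ n := by exact_mod_cast hn
  have hkK : k ≤ K := (Nat.le_self_pow (by norm_num) k).trans hK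
  have hK1 : (k : ℝ) ≤ K := by exact_mod_cast hkK
  have hK4 : (k : ℝ) ^ 4 ≤ K := by exact_mod_cast hK
  have hz1 : |(x.1 : ℝ) / n| ≤ 1 := by simpa using abs_div_le (a := 1) hn (by simpa using hz)
  have hz2 : |(x.1 : ℝ)| ≤ n := by exact_mod_cast hz
  have e1 : ∀ b, MM n x (w b) = ((x.1 : ℝ) / n) • (gR N (w b) + ((w b).1 : ℝ) • γ) +
      (((w b).1 : ℝ) / n) • (gR N x - (x.1 : ℝ) • γ) := fun b => by
    unfold MM
    simp only [div_eq_mul_inv]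
    module
  have e2 : ∀ b ∈ P.S, E b → ‖((x.1 : ℝ) / n) • (gR N (w b) + ((w b).1 : ℝ) • γ)‖ ≤ ν :=
    fun b hb hE => by
      rw [norm_smul, Real.norm_eq_abs]
      exact (mul_le_of_le_one_left (norm_nonneg _) hz1).trans (h b hb hE).2.2.2
  have e3 : ∀ b ∈ P.S, E b → ∃ u ∈ U,
      ‖(((w b).1 : ℝ) / n) • (gR N x - (x.1 : ℝ) • γ) - u‖ ≤ k + ν := fun b hb hE => by
    obtain ⟨u, hu, h1⟩ := (h b hb hE).2.2.1
    refine ⟨u, hu, ?_⟩
    have e : (((w b).1 : ℝ) / n) • (gR N x - (x.1 : ℝ) • γ) - u = (MM n x (w b) - u) -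
        ((x.1 : ℝ) / n) • (gR N (w b) + ((w b).1 : ℝ) • γ) := by rw [e1]; abel
    rw [e]
    exact (norm_sub_le _ _).trans (add_le_add h1 (e2 b hb hE))
  have p1 : (1 : ℝ) ≤ (K : ℝ) ^ C := one_le_pow₀ (by linarith)
  have p2 : (K : ℝ) ≤ K ^ j := le_self_pow₀ (by linarith) (by omega)
  have p3 : 1 ≤ K ^ (C + 1) := Nat.one_le_pow _ _ (by omega)
  have a4 := shortB hL hq (gR N x - (x.1 : ℝ) • γ) (hx0.sub (hγ0.smul _)) P (fun ω => (w ω).1) E
    (A := 2 * K ^ (C + 1)) (μ := k + ν + (k + ν)) (L := (K : ℝ) ^ j) (m := k / n)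
    (by omega) (by linarith) (by linarith) (by linarith) (by positivity) (by
      refine (norm_sub_le _ _).trans ?_
      rw [norm_smul, Real.norm_eq_abs]
      have b1 : |(x.1 : ℝ)| * ‖γ‖ ≤ n * (K : ℝ) ^ C :=
        mul_le_mul hz2 hγ (norm_nonneg _) (by positivity)
      have b2 : (k : ℝ) * n ≤ K ^ C * K * n :=
        mul_le_mul_of_nonneg_right (by nlinarith) (by positivity)
      have b3 : (n : ℝ) * K ^ C ≤ K ^ C * K * n := by
        have : (0 : ℝ) ≤ n * K ^ C := by positivity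
        nlinarith
      push_cast
      rw [pow_succ]
      linarith) hE (fun b hb hE => ⟨by
        refine (h b hb hE).1.trans (mul_le_mul_of_nonneg_right ?_ (by positivity))
        have : 2 ≤ 2 * K ^ (C + 1) := by omega
        exact_mod_cast this, (h b hb hE).2.1⟩)
    (fun a ha b hb ga gb => by
      obtain ⟨u, hu, h1⟩ := e3 a ha ga
      obtain ⟨u', hu', h2⟩ := e3 b hb gb
      have := nr_pair hu hu' h1 h2
      rw [← sub_smul, ← sub_div] at this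
      exact this) (by
      have b1 := rpow_neg_le (k := K) (i := 2 * C + 6) (j := j) (e := e) (by linarith) hje
      have b2 : 3 * ((2 * K ^ (C + 1) : ℕ) : ℝ) ^ 2 * (n * ((K : ℝ) ^ j) ^ (-e)) * (k / n) =
          12 * K ^ (2 * C + 2) * k * ((K : ℝ) ^ j) ^ (-e) := by
        push_cast; field_simp; ring
      have b3 : (1 : ℝ) / (2 * k) * (1 / k) / 2 = 1 / (4 * k ^ 2) := by field_simp; norm_num
      have K0 : (0 : ℝ) < K := by linarith
      rw [b2, b3]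
      refine lt_of_le_of_lt (mul_le_mul_of_nonneg_left b1 (by positivity)) ?_
      rw [← div_eq_mul_inv, div_lt_div_iff₀ (by positivity) (by positivity)]
      have b4 : (0 : ℝ) < K ^ (2 * C + 2) := by positivity
      have b5 : (K : ℝ) ^ (2 * C + 6) = K ^ (2 * C + 2) * K ^ 4 := by ring
      have b6 : (48 : ℝ) * k ^ 3 < K ^ 4 := by
        have c1 : (K : ℝ) * 16 ^ 3 ≤ K * K ^ 3 :=
          mul_le_mul_of_nonneg_left (pow_le_pow_left₀ (by norm_num) (by linarith) 3) K0.le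
        have c2 : (k : ℝ) ^ 3 ≤ k ^ 4 := pow_le_pow_right₀ (by linarith) (by norm_num)
        nlinarith
      rw [b5]
      nlinarith)
  intro b hb hE
  rw [e1]
  refine (norm_add_le _ _).trans ?_
  have c1 := e2 b hb hE
  have c2 : ‖(((w b).1 : ℝ) / n) • (gR N x - (x.1 : ℝ) • γ)‖ ≤ 2 * ‖gR N x - (x.1 : ℝ) • γ‖ := by
    rw [norm_smul, Real.norm_eq_abs]
    refine mul_le_mul_of_nonneg_right ?_ (norm_nonneg _)
    simpa using abs_div_le (a := 2) hn (by simpa using (h b hb hE).1)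
  have c3 : (k : ℝ) + ν + (k + ν) ≤ 4 * (K * ν) := by nlinarith
  have c4 : ((2 * K ^ (C + 1) : ℕ) : ℝ) * (k + ν + (k + ν)) * (K : ℝ) ^ j ≤
      8 * (ν * K ^ (C + 2 + j)) := by
    refine le_trans (mul_le_mul_of_nonneg_right (mul_le_mul_of_nonneg_left c3 (by positivity))
      (by positivity)) (le_of_eq ?_)
    push_cast; ring
  have c5 : (1 : ℝ) ≤ (K : ℝ) ^ (C + 2 + j) := one_le_pow₀ (by linarith)
  have c6 : ν ≤ ν * K ^ (C + 2 + j) := le_mul_of_one_le_right (by linarith) c5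
  have c7 : ν * (K : ℝ) ^ (C + 4 + j) = ν * K ^ (C + 2 + j) * (K * K) := by ring
  have c8 : (256 : ℝ) ≤ K * K := by nlinarith
  rw [c7]
  nlinarith

theorem combB (N : ℕ) (e : ℝ) (he : 0 < e) : ∃ (q : ℕ) (c₁ : ℝ), 0 < c₁ ∧ ∀ c' e' : ℝ, 0 < c' →
    0 < e' → ∃ (h n₀ : ℕ) (c : ℝ), 0 < c ∧ 1 ≤ h ∧ ∀ (n k : ℕ) (S : Set (Fin N)) (U : Set (V N))
      (Ω : Type) (P : FP Ω)
      (d w : Ω → D N) (G : D N → D N → Prop), n₀ ≤ n → 16 ≤ k → k ^ h ≤ n → n ≤ k ^ (2 * h) →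
      LineB S U n q k e → Top U n c₁ c' e' → Bnd P d w n k → (∀ a ∈ P.S, Sup S (gR N (d a))) →
      (∀ a ∈ P.S, ∀ b ∈ P.S, G (d a) (w b) → (∃ u ∈ U, ‖MM n (d a) (w b) - u‖ ≤ k) ∧
        pv P (fun ω => (d ω).1) (d a).1 ≤ k / n ∧ pv P (fun ω => (w ω).1) (w b).1 ≤ k / n) →
      1 ≤ k * den P d w G ^ (8 * (h + 1) * (N + 1) + 2) →
      ∃ a ∈ P.S, ∃ b ∈ P.S, G (d a) (w b) ∧ ‖MM n (d a) (w b)‖ ≤ n * (n : ℝ) ^ (-c) := by
  classical
  obtain ⟨q, C, c₀, hc₀, hS⟩ := setB N e he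
  refine ⟨q + 4, c₀, hc₀, fun c₁ e' hc₁ he' => ?_⟩
  obtain ⟨n₀, κ, hκ, hS⟩ := hS e' he'
  obtain ⟨j, hj⟩ := exists_nat_gt (((2 * C + 6 : ℕ) : ℝ) / e)
  have hje : ((2 * C + 6 : ℕ) : ℝ) ≤ j * e := ((div_lt_iff₀ he).1 hj).le
  have hje' : (6 : ℝ) ≤ j * e := le_trans (by exact_mod_cast (by omega : 6 ≤ 2 * C + 6)) hje
  have hj1 : 1 ≤ j := by
    rcases Nat.eq_zero_or_pos j with rfl | h
    · norm_num at hje'
    · exact h
  set s := N * (5 + j) + 4 with hs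
  set c := min c₁ 1 / 2 with hc
  have hc0 : 0 < c := half_pos (lt_min hc₁ one_pos)
  obtain ⟨h, hh⟩ := exists_nat_gt ((s : ℝ) / κ + ((s * (C + (C + 4 + j)) : ℕ) : ℝ) / c)
  have t1 : (0 : ℝ) ≤ (s : ℝ) / κ := by positivity
  have t2 : (0 : ℝ) ≤ ((s * (C + (C + 4 + j)) : ℕ) : ℝ) / c := by positivity
  have hh1 : (s : ℝ) ≤ h * κ := (div_le_iff₀ hκ).1 (by linarith)
  have hh2 : ((s * (C + (C + 4 + j)) : ℕ) : ℝ) ≤ h * c := (div_le_iff₀ hc0).1 (by linarith)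
  have hh0 : 1 ≤ h := by
    have : (0 : ℝ) < h := by linarith
    exact_mod_cast this
  refine ⟨h, n₀, c, hc0, hh0, ?_⟩
  intro n k S U Ω P d w G hn₀ hk hn hn' hLine hTop hb h0 hG hd
  have hn1 : 1 ≤ n := (Nat.one_le_pow _ _ (by omega)).trans hn
  have hnR : (1 : ℝ) ≤ n := by exact_mod_cast hn1
  have hkR : (16 : ℝ) ≤ k := by exact_mod_cast hk
  have L2 := line2B hn1 hLine
  have hK4 : k ^ 4 ≤ k ^ s := Nat.pow_le_pow_right (by omega) (by omega)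
  have hkK : k ≤ k ^ s := Nat.le_self_pow (by omega) k
  have hkK' : (k : ℝ) ≤ (k ^ s : ℕ) := by exact_mod_cast hkK
  have hν : (1 : ℝ) ≤ n * (n : ℝ) ^ (-(2 * c)) := by
    have a1 : (n : ℝ) ^ (-1 : ℝ) ≤ (n : ℝ) ^ (-(2 * c)) :=
      Real.rpow_le_rpow_of_exponent_le hnR (by have := min_le_right c₁ 1; linarith)
    rw [Real.rpow_neg_one] at a1
    have a2 := mul_le_mul_of_nonneg_left a1 (by linarith : (0 : ℝ) ≤ n)
    rwa [mul_inv_cancel₀ (by linarith)] at a2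
  have hfin : n * (n : ℝ) ^ (-(2 * c)) * ((k ^ s : ℕ) : ℝ) ^ (C + (C + 4 + j)) ≤
      n * (n : ℝ) ^ (-c) := by
    have a1 := pow_le_rpow (by omega : 1 ≤ k) hn hc0.le hh2
    rw [pow_mul] at a1
    have a2 : (n : ℝ) ^ (-c) = (n : ℝ) ^ (-(2 * c)) * (n : ℝ) ^ c := by
      rw [← Real.rpow_add (by linarith)]; ring_nf
    rw [a2, ← mul_assoc, Nat.cast_pow]
    exact mul_le_mul_of_nonneg_left a1 (by linarith)
  obtain ⟨Γ, hΓ, T, g1, g2, g3, g4⟩ := gamB L2 (by omega) hb h0 hk hn1 hn' hj1 hje'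
    (fun a ha b hb' g => ⟨(hG a ha b hb' g).1, (hG a ha b hb' g).2.2⟩) hd
  obtain ⟨a₀, ha₀, hE⟩ := wide P (fun a => d a ∈ Γ) (fun a b => G (d a) (w b)) (by positivity)
    (by positivity) g1 fun a _ ha => g2 _ ha
  set E := fun b => G (d a₀) (w b) ∧
    (1 : ℝ) / (2 * k) * (1 / k) / 2 ≤ pb P fun a => d a ∈ Γ ∧ G (d a) (w b) with hEd
  have hv : ∀ x ∈ Γ, ∃ a ∈ P.S, d a = x := fun x hx => Finset.mem_image.1 (hΓ hx)
  have hW : ∀ v ∈ (P.S.filter E).image w, ∃ b ∈ P.S, E b ∧ w b = v := fun v hv => by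
    obtain ⟨b, h1, h2⟩ := Finset.mem_image.1 hv
    exact ⟨b, (Finset.mem_filter.1 h1).1, (Finset.mem_filter.1 h1).2, h2⟩
  have hkn : (k : ℝ) * n ≤ (k ^ s : ℕ) * n := mul_le_mul_of_nonneg_right hkK' (by linarith)
  have hKκ : ((k ^ s : ℕ) : ℝ) ≤ (n : ℝ) ^ κ := by
    rw [Nat.cast_pow]; exact pow_le_rpow (by omega) hn hκ.le hh1
  obtain ⟨γ, hγ0, hγ, hγ'⟩ := hS c₁ n (k ^ s) S U Γ T ((P.S.filter E).image w) hn₀ (by omega) hKκ
    (hLine.mono (by omega) (hkK'.trans hKκ)) hTop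
    (g3.trans (Nat.mul_le_mul_right _ (Nat.pow_le_pow_right (by omega) (by omega)))) g4
    (fun x hx => by obtain ⟨a, ha, rfl⟩ := hv x hx; exact hb.z a ha)
    (fun x hx => by obtain ⟨a, ha, rfl⟩ := hv x hx; exact (hb.g a ha).trans hkn)
    (fun x hx => by obtain ⟨a, ha, rfl⟩ := hv x hx; exact h0 a ha)
    { pb := fun v hv => by obtain ⟨b, h1, -, rfl⟩ := hW v hv; exact (hb.p b h1).trans hkn
      rb := fun v hv => by
        obtain ⟨b, h1, -, rfl⟩ := hW v hv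
        refine (hb.r b h1).trans (mul_le_mul_of_nonneg_right ?_ (by positivity))
        exact_mod_cast (by omega : 2 ≤ k ^ s)
      nb := fun v hv' => by
        obtain ⟨b, h1, h2, rfl⟩ := hW v hv'
        refine ⟨Γ.filter fun x => G x (w b), Finset.filter_subset _ _,
          many P (fun ω => (d ω).1) _ _ hn1 hk hK4 h2.2 fun a ha h3 =>
            ⟨Finset.mem_image_of_mem Prod.fst (Finset.mem_filter.2 h3),
              (hG a ha b h1 h3.2).2.1⟩, fun x hx => ?_⟩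
        rw [Finset.mem_filter] at hx
        obtain ⟨a, ha, rfl⟩ := hv x hx.1
        obtain ⟨u, hu, h3⟩ := (hG a ha b h1 hx.2).1
        exact ⟨u, hu, h3.trans hkK'⟩
      rd := many P (fun ω => (w ω).1) E _ hn1 hk hK4 hE fun b h1 h2 =>
        ⟨Finset.mem_image_of_mem Prod.fst
          (Finset.mem_image_of_mem w (Finset.mem_filter.2 ⟨h1, h2⟩)),
          (hG a₀ ha₀ b h1 h2.1).2.2⟩ }
  have hC1 : (1 : ℝ) ≤ ((k ^ s : ℕ) : ℝ) ^ C := one_le_pow₀ (by linarith)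
  have hl := lastB (ν := ((k ^ s : ℕ) : ℝ) ^ C * (n * (n : ℝ) ^ (-(2 * c)))) L2 (by omega) hn1 hk
    (h0 a₀ ha₀) hγ0 hK4 hj1 hje (one_le_mul_of_one_le_of_one_le hC1 hν) (hb.z a₀ ha₀)
    (hb.g a₀ ha₀) hγ hE
    fun b h1 h2 => ⟨hb.r b h1, (hG a₀ ha₀ b h1 h2.1).2.2, (hG a₀ ha₀ b h1 h2.1).1,
      (hγ' _ (Finset.mem_image_of_mem w (Finset.mem_filter.2 ⟨h1, h2⟩))).trans
        (mul_le_mul_of_nonneg_left (mul_le_mul_of_nonneg_left
          (Real.rpow_le_rpow_of_exponent_le hnR (by have := min_le_left c₁ 1; linarith))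
          (by linarith)) (by linarith))⟩
  obtain ⟨b, h1, h2⟩ := pb_ex P (lt_of_lt_of_le (by positivity) hE)
  refine ⟨a₀, ha₀, b, h1, h2.1, (hl b h1 h2).trans (le_trans (le_of_eq ?_) hfin)⟩
  rw [pow_add _ C]
  ring

end Pool.Agent.MP_5168f5_an.H75T
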