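import Pool.Agent.MP_5168f5_an.H75T.Main

/-! The two segment hypotheses follow from the graded one. -/

namespace Pool.Agent.MP_5168f5_an.H75T

open H19 H17S H17F H95F H39F

variable {k : ℕ} {S : Set (Fin k)} {U : Set (V k)}

theorem nrG_of {q : ℕ} {μ μ₁ μ₂ a₁ a₂ : ℝ} {x y : V k} (h : Nr U q μ x)
    (h1 : ∀ j, j ∉ S → |(y - x) j| ≤ a₁) (h2 : ∀ j ∈ S, |(y - x) j| ≤ a₂) (e1 : a₁ + μ ≤ μ₁)
    (e2 : a₂ + μ ≤ μ₂) : NrG S U q μ₁ μ₂ y := by
  obtain ⟨a, b, hab, hx⟩ := h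
  have key : ∀ j, |(y - ∑ i, (a i - b i)) j| ≤ |(y - x) j| + μ := fun j => by
    have e : (y - ∑ i, (a i - b i)) j = (y - x) j + (x - ∑ i, (a i - b i)) j := by
      simp only [Pi.sub_apply]; ring
    rw [e]
    exact (abs_add_le _ _).trans (add_le_add le_rfl ((norm_le_pi_norm _ j).trans hx))
  exact ⟨a, b, hab, fun j hj => (key j).trans (by linarith [h1 j hj]),
    fun j hj => (key j).trans (by linarith [h2 j hj])⟩

theorem GLine.mono {ρ : ℝ} {n q q' : ℕ} {L₀ L₁ e : ℝ} (h : GLine S ρ U n q L₀ e) (hq : q' ≤ q)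
    (hL : L₀ ≤ L₁) : GLine S ρ U n q' L₁ e :=
  fun q'' h1 v μ L T h2 h3 => h q'' (h1.trans hq) v μ L T h2 (hL.trans h3)

theorem GLine.lineB {ρ : ℝ} {n q : ℕ} {L₀ e : ℝ} (h : GLine S ρ U n q L₀ e) (hn : 1 ≤ n)
    (hρ : ρ ≤ 1) (hL : 1 ≤ L₀) : LineB S U n q L₀ e := by
  intro q' hq μ L hμ hL0 v T h0 h1 h2 h3 h4
  have hn0 : (0 : ℝ) < n := by exact_mod_cast hn
  have a1 : μ ≤ n := by nlinarith
  have a2 : μ / n ≤ (μ / n) ^ ρ := by
    have := Real.rpow_le_rpow_of_exponent_ge (x := μ / n) (by positivity)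
      ((div_le_one hn0).2 a1) hρ
    rwa [Real.rpow_one] at this
  have a3 : μ ≤ n * (μ / n) ^ ρ := by rwa [div_le_iff₀' hn0] at a2
  exact h q' hq v μ L T hμ hL0 (Or.inl ⟨h0, h1⟩) h2 h3 fun t ht t' ht' =>
    nrG_of (a₁ := 0) (a₂ := 0) (h4 t ht t' ht') (by simp) (by simp) (by linarith) (by linarith)

/-- A dense part of a range, stretched by the factor `A` and filled. -/
theorem stretch {n A : ℕ} (hA : 1 ≤ A) (hAn : A ≤ n) (T : Finset ℤ)
    (hT : T ⊆ Finset.Ico (0 : ℤ) n) : ∃ T' ⊆ Finset.Ico (0 : ℤ) n, T.card ≤ 2 * T'.card ∧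
      ∀ s ∈ T', ∀ s' ∈ T', ∃ t ∈ T, ∃ t' ∈ T, |s - s' - A * (t - t')| ≤ A ∧
        A * |t - t'| ≤ n := by
  classical
  set m : ℕ := n / A with hm
  have m1 : 1 ≤ m := (Nat.le_div_iff_mul_le (by omega)).2 (by omega)
  have m2 : A * m ≤ n := Nat.mul_div_le n A
  have m3 : n < A * m + A := by
    have := Nat.lt_mul_div_succ n (show 0 < A by omega)
    rw [← hm] at this
    linarith
  have z1 : (1 : ℤ) ≤ m := by exact_mod_cast m1
  have z2 : (A : ℤ) * m ≤ n := by exact_mod_cast m2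
  have z3 : (n : ℤ) < A * m + A := by exact_mod_cast m3
  have zA : (1 : ℤ) ≤ A := by exact_mod_cast hA
  obtain ⟨T₁, h1, h2, h3⟩ := pig1 T (fun t => t / m) (Finset.Ico (0 : ℤ) (2 * A)) fun t ht => by
    have := Finset.mem_Ico.1 (hT ht)
    refine Finset.mem_Ico.2 ⟨Int.ediv_nonneg this.1 (by omega), ?_⟩
    refine Int.ediv_lt_of_lt_mul (by omega) ?_
    nlinarith [this.2]
  have hd : ∀ t ∈ T₁, ∀ t' ∈ T₁, t % m - t' % m = t - t' := fun t ht t' ht' => by
    have : t / m = t' / m := h3 t ht t' ht'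
    rw [Int.emod_def, Int.emod_def, this]
    ring
  have hr : ∀ t : ℤ, 0 ≤ t % m ∧ t % m + 1 ≤ m := fun t =>
    ⟨Int.emod_nonneg _ (by omega), Int.emod_lt_of_pos _ (by omega)⟩
  refine ⟨(T₁ ×ˢ Finset.Ico (0 : ℤ) A).image fun x => A * (x.1 % m) + x.2, fun s hs => ?_, ?_,
    fun s hs s' hs' => ?_⟩
  · obtain ⟨⟨t, j⟩, hx, rfl⟩ := Finset.mem_image.1 hs
    have hj := Finset.mem_Ico.1 (Finset.mem_product.1 hx).2
    have := hr t
    refine Finset.mem_Ico.2 ⟨by nlinarith [hj.1], by nlinarith [hj.2]⟩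
  · rw [Finset.card_image_of_injOn, Finset.card_product]
    · have e1 : (Finset.Ico (0 : ℤ) (2 * A)).card = 2 * A := by rw [Int.card_Ico]; omega
      have e2 : (Finset.Ico (0 : ℤ) A).card = A := by rw [Int.card_Ico]; omega
      rw [e1] at h2
      rw [e2]
      linarith
    · rintro ⟨t, j⟩ hx ⟨t', j'⟩ hx' e
      rw [Finset.mem_coe, Finset.mem_product] at hx hx'
      have hj := Finset.mem_Ico.1 hx.2
      have hj' := Finset.mem_Ico.1 hx'.2
      have e1 := hd t hx.1 t' hx'.1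
      simp only at e hj hj'
      have e2 : (A : ℤ) * (t - t') = j' - j := by rw [← e1]; linarith
      have e3 : t - t' = 0 := by
        by_contra hne
        rcases lt_or_gt_of_ne hne with h | h <;> nlinarith [hj.1, hj.2, hj'.1, hj'.2]
      rw [e3] at e2
      exact Prod.ext (by simpa using sub_eq_zero.1 e3) (by simp only; linarith)
  · obtain ⟨⟨t, j⟩, hx, rfl⟩ := Finset.mem_image.1 hs
    obtain ⟨⟨t', j'⟩, hx', rfl⟩ := Finset.mem_image.1 hs'
    rw [Finset.mem_product] at hx hx'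
    have hj := Finset.mem_Ico.1 hx.2
    have hj' := Finset.mem_Ico.1 hx'.2
    have e1 := hd t hx.1 t' hx'.1
    simp only at hj hj' ⊢
    refine ⟨t, h1 hx.1, t', h1 hx'.1, ?_, ?_⟩
    · rw [← e1, abs_le]
      constructor <;> linarith [hj.1, hj.2, hj'.1, hj'.2]
    · have : |t - t'| ≤ m := by
        rw [← e1, abs_le]
        constructor <;> linarith [hr t, hr t', (hr t).1, (hr t').1, (hr t).2, (hr t').2]
      nlinarith

theorem rp (n : ℕ) (hn : 1 ≤ n) (y ρ : ℝ) :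
    (n * (n : ℝ) ^ (-y) / n) ^ ρ = (n : ℝ) ^ (-(y * ρ)) := by
  have hn0 : (0 : ℝ) < n := by exact_mod_cast hn
  rw [mul_div_cancel_left₀ _ hn0.ne', ← Real.rpow_mul hn0.le]
  ring_nf

/-- Two powers are absorbed by a small loss in the exponent. -/
theorem ab {n : ℝ} {η a b c : ℝ} (hn : 1 ≤ n) (h : 4 ≤ n ^ η) (ha : c + η ≤ a) (hb : c + η ≤ b) :
    2 * (n ^ (-a) + n ^ (-b)) ≤ n ^ (-c) := by
  have a1 : n ^ (-a) ≤ n ^ (-(c + η)) := Real.rpow_le_rpow_of_exponent_le hn (by linarith)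
  have a2 : n ^ (-b) ≤ n ^ (-(c + η)) := Real.rpow_le_rpow_of_exponent_le hn (by linarith)
  have a3 : n ^ (-c) = n ^ η * n ^ (-(c + η)) := by
    rw [← Real.rpow_add (by linarith)]; ring_nf
  have a4 : 0 ≤ n ^ (-(c + η)) := by positivity
  rw [a3]
  nlinarith

theorem GLine.top {ρ c z : ℝ} {n q : ℕ} {L₀ e η : ℝ} (h : GLine S ρ U n q L₀ e) (hn : 1 ≤ n)
    (hq : 1 ≤ q) (he : 0 < e) (hρ0 : 0 < ρ) (hρ : ρ < 1) (hc0 : 0 < c) (hc : c ≤ 1)
    (hz : z = (1 - ρ) * c / 12) (hη0 : 0 ≤ η) (hη : η ≤ z / 2) (hη' : η ≤ z * e / 2)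
    (h4 : 4 ≤ (n : ℝ) ^ η) (hL : L₀ ≤ (n : ℝ) ^ (ρ * z / 4)) :
    Top U n c (ρ * z / 4) (ρ * z / 4 * e) := by
  intro v T _ h1 h2 h3 hN
  have n1 : (1 : ℝ) ≤ n := by exact_mod_cast hn
  have n0 : (0 : ℝ) < n := by linarith
  have z0 : 0 < z := by rw [hz]; have : 0 < 1 - ρ := by linarith
                        positivity
  have z1 : 12 * z ≤ c := by nlinarith
  have z2 : ρ * z ≤ z := by nlinarith
  have z3 : 0 < ρ * z := by positivity
  have one : ∀ y : ℝ, y ≤ 1 → 1 ≤ n * (n : ℝ) ^ (-y) := fun y hy => by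
    have a1 : (n : ℝ) ^ (-1 : ℝ) ≤ (n : ℝ) ^ (-y) :=
      Real.rpow_le_rpow_of_exponent_le n1 (by linarith)
    rw [Real.rpow_neg_one] at a1
    have a2 := mul_le_mul_of_nonneg_left a1 n0.le
    rwa [mul_inv_cancel₀ n0.ne'] at a2
  have pos : ∀ y : ℝ, 0 < (n : ℝ) ^ y := fun y => by positivity
  have mul : ∀ a b : ℝ, (n : ℝ) ^ a * (n : ℝ) ^ b = (n : ℝ) ^ (a + b) := fun a b =>
    (Real.rpow_add n0 a b).symm
  have dif : ∀ t ∈ T, ∀ t' ∈ T, |((t : ℝ) - t') / n| ≤ 1 := fun t ht t' ht' => by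
    have a1 := Finset.mem_Ico.1 (h3 ht)
    have a2 := Finset.mem_Ico.1 (h3 ht')
    have : |t - t'| ≤ (n : ℤ) := by rw [abs_le]; omega
    rw [abs_div, abs_of_pos n0, div_le_one n0]
    exact_mod_cast this
  have vj : ∀ j, |v j| ≤ n := fun j => (norm_le_pi_norm v j).trans h2
  by_cases hv : n * (n : ℝ) ^ (-z) ≤ ‖cut S v‖
  · set x := ρ * (c / 2) + 3 * z with hx
    have x0 : 0 < x := by positivity
    have x1 : x + 3 * z = c / 2 := by rw [hx, hz]; ring
    set A : ℕ := ⌈(n : ℝ) ^ x⌉₊ with hA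
    have A0 : (n : ℝ) ^ x ≤ A := Nat.le_ceil _
    have A1 : (1 : ℝ) ≤ (n : ℝ) ^ x := Real.one_le_rpow n1 x0.le
    have A2 : (A : ℝ) ≤ 2 * (n : ℝ) ^ x := by
      have := Nat.ceil_lt_add_one (pos x).le
      linarith
    have A3 : (1 : ℝ) ≤ A := A1.trans A0
    have A4 : A ≤ n := Nat.ceil_le.2 (by
      have := Real.rpow_le_rpow_of_exponent_le n1 (show x ≤ 1 by linarith)
      rwa [Real.rpow_one] at this)
    obtain ⟨T', t1, t2, t3⟩ := stretch (by exact_mod_cast A3) A4 T h3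
    have nv : ‖(A : ℝ)⁻¹ • cut S v‖ = ‖cut S v‖ / A := by
      rw [norm_smul, norm_inv, Real.norm_of_nonneg (by linarith), div_eq_inv_mul]
    have key := h 1 hq ((A : ℝ)⁻¹ • cut S v) (n * (n : ℝ) ^ (-(c / 2))) ((n : ℝ) ^ z) T'
      (one _ (by linarith)) (hL.trans (Real.rpow_le_rpow_of_exponent_le n1 (by linarith)))
      (Or.inl ⟨(sup_cut S v).smul _, by
        rw [nv, le_div_iff₀ (by linarith)]
        refine le_trans ?_ hv
        have a1 := ab n1 h4 (a := 2 * z) (b := 2 * z) (c := z) (by linarith) (by linarith)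
        have a2 : (n : ℝ) ^ (-(c / 2)) * (n : ℝ) ^ z * (n : ℝ) ^ x = (n : ℝ) ^ (-(2 * z)) := by
          rw [mul, mul]; congr 1; linarith
        have a3 : (n : ℝ) ^ (-(c / 2)) * (n : ℝ) ^ z * A ≤
            (n : ℝ) ^ (-(c / 2)) * (n : ℝ) ^ z * (2 * (n : ℝ) ^ x) := by gcongr
        have a4 := pos (-(2 * z))
        rw [mul_assoc, mul_assoc, ← mul_assoc _ _ (A : ℝ)]
        refine mul_le_mul_of_nonneg_left ?_ n0.le
        nlinarith⟩)
      (by rw [nv]; exact (div_le_self (norm_nonneg _) A3).trans ((norm_cut S v).trans h2)) t1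
      fun s hs s' hs' => by
        obtain ⟨t, ht, t', ht', b1, b2⟩ := t3 s hs s' hs'
        have b3 : |(s : ℝ) - s' - A * (t - t')| ≤ A := by exact_mod_cast b1
        have b4 : (A : ℝ) * |(t : ℝ) - t'| ≤ n := by exact_mod_cast b2
        refine nrG_of (a₁ := n * (n : ℝ) ^ (-x)) (a₂ := 1) (hN t ht t' ht') (fun j hj => ?_)
          (fun j hj => ?_) ?_ ?_
        · have e : ((((s : ℝ) - s') / n) • (A : ℝ)⁻¹ • cut S v - (((t : ℝ) - t') / n) • v) j =
              -(((t : ℝ) - t') / n * v j) := by simp [cut, hj]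
          rw [e, abs_neg, abs_mul, abs_div, abs_of_pos n0, Real.rpow_neg n0.le]
          have c1 : |(t : ℝ) - t'| ≤ n * ((n : ℝ) ^ x)⁻¹ := by
            rw [← div_eq_mul_inv, le_div_iff₀ (pos x)]
            nlinarith [abs_nonneg ((t : ℝ) - t')]
          have c2 : |(t : ℝ) - t'| / n * |v j| ≤ |(t : ℝ) - t'| / n * n := by gcongr; exact vj j
          rw [div_mul_cancel₀ _ n0.ne'] at c2
          linarith
        · have e : ((((s : ℝ) - s') / n) • (A : ℝ)⁻¹ • cut S v - (((t : ℝ) - t') / n) • v) j =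
              ((s : ℝ) - s' - A * (t - t')) / A * (v j / n) := by
            simp only [cut, hj, Pi.sub_apply, Pi.smul_apply, smul_eq_mul, if_true]
            field_simp
          rw [e, abs_mul, abs_div, abs_div, abs_of_pos n0, abs_of_pos (by linarith : (0 : ℝ) < A)]
          exact mul_le_one₀ ((div_le_one (by linarith)).2 b3) (by positivity)
            ((div_le_one n0).2 (vj j))
        · rw [rp n hn, ← mul_add]
          refine mul_le_mul_of_nonneg_left ?_ n0.le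
          have a1 := ab n1 h4 (a := x) (b := c) (c := c / 2 * ρ) (by linarith) (by nlinarith)
          linarith [pos (-x), pos (-c)]
        · have a1 := ab n1 h4 (a := c) (b := c) (c := c / 2) (by linarith) (by linarith)
          have a2 := one c hc
          have a3 := mul_le_mul_of_nonneg_left a1 n0.le
          linarith
    have t4 : (T.card : ℝ) ≤ 2 * T'.card := by exact_mod_cast t2
    rw [← Real.rpow_mul n0.le] at key
    have a1 := ab n1 h4 (a := z * e) (b := z * e) (c := ρ * z / 4 * e) (by nlinarith)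
      (by nlinarith)
    have a2 := mul_le_mul_of_nonneg_left a1 n0.le
    have a3 := mul_pos n0 (pos (-(z * e)))
    rw [mul_neg] at key
    linarith
  · have hv' := (not_le.1 hv).le
    have a0 : n * (n : ℝ) ^ (-(ρ * z / 4)) ≤ ‖cut Sᶜ v‖ := by
      by_contra hc'
      have a1 : (n : ℝ) ^ (-z) ≤ (n : ℝ) ^ (-(ρ * z / 4)) :=
        Real.rpow_le_rpow_of_exponent_le n1 (by linarith)
      have a2 := (not_le.1 hv).trans_le (mul_le_mul_of_nonneg_left a1 n0.le)
      refine absurd h1 (not_le.2 ((pi_norm_lt_iff (mul_pos n0 (pos _))).2 fun j => ?_))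
      by_cases hj : j ∈ S
      · simpa [cut, hj] using (norm_le_pi_norm (cut S v) j).trans_lt a2
      · simpa [cut, hj] using (norm_le_pi_norm (cut Sᶜ v) j).trans_lt (not_le.1 hc')
    have key := h 1 hq (cut Sᶜ v) (n * (n : ℝ) ^ (-(z / 2))) ((n : ℝ) ^ (ρ * z / 4)) T
      (one _ (by linarith)) hL (Or.inr ⟨sup_cut _ v, by
        refine le_trans (le_of_eq ?_) a0
        rw [rp n hn, mul_assoc, mul]
        congr 2
        ring⟩) ((norm_cut _ v).trans h2) h3 fun t ht t' ht' => by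
        refine nrG_of (a₁ := 0) (a₂ := n * (n : ℝ) ^ (-z)) (hN t ht t' ht') (fun j hj => ?_)
          (fun j hj => ?_) ?_ ?_
        · simp [cut, hj]
        · have e : ((((t : ℝ) - t') / n) • cut Sᶜ v - (((t : ℝ) - t') / n) • v) j =
              -(((t : ℝ) - t') / n * cut S v j) := by simp [cut, hj]
          rw [e, abs_neg, abs_mul]
          exact (mul_le_of_le_one_left (abs_nonneg _) (dif t ht t' ht')).trans
            ((norm_le_pi_norm (cut S v) j).trans hv')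
        · rw [rp n hn, zero_add]
          exact mul_le_mul_of_nonneg_left
            (Real.rpow_le_rpow_of_exponent_le n1 (by nlinarith)) n0.le
        · rw [← mul_add]
          refine mul_le_mul_of_nonneg_left ?_ n0.le
          have a1 := ab n1 h4 (a := z) (b := c) (c := z / 2) (by linarith) (by linarith)
          linarith [pos (-z), pos (-c)]
    rwa [← Real.rpow_mul n0.le, mul_neg] at key

theorem Top.mono {n : ℕ} {c₀ c c' e' : ℝ} (h : Top U n c₀ c' e') (hn : 1 ≤ n) (hc : c₀ ≤ c) :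
    Top U n c c' e' := fun v T h0 h1 h2 h3 h4 =>
  h v T h0 h1 h2 h3 fun t ht t' ht' => (h4 t ht t' ht').mono (mul_le_mul_of_nonneg_left
    (Real.rpow_le_rpow_of_exponent_le (by exact_mod_cast hn) (by linarith)) (Nat.cast_nonneg _))

theorem tieG : TieG := by
  intro N e ρ he hρ0 hρ
  obtain ⟨q, c, hc, H⟩ := tieP N e he
  set z := (1 - ρ) * min c 1 / 12 with hz
  have c0 : 0 < min c 1 := lt_min hc one_pos
  have z0 : 0 < z := by
    have : 0 < 1 - ρ := by linarith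
    positivity
  obtain ⟨c'', hc'', H⟩ := H (ρ * z / 4) (ρ * z / 4 * e) (by positivity) (by positivity)
  refine ⟨q + 1, c'', hc'', fun ε hε => ?_⟩
  obtain ⟨R₀, κ, hκ, H⟩ := H ε hε
  set η := min (z / 2) (z * e / 2) with hη
  have η0 : 0 < η := lt_min (by positivity) (by positivity)
  obtain ⟨R₁, hR₁⟩ := exists_nat_gt (2 / η)
  have l0 := lg_pos
  refine ⟨R₀ + R₁, min κ (lg * (ρ * z / 4)), lt_min hκ (by positivity), ?_⟩
  intro R Ω P d w S U L hR hL1 hL2 hb h0 hnear hI h1 h2 hG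
  have R0 : (0 : ℝ) ≤ R := Nat.cast_nonneg _
  have k1 : min κ (lg * (ρ * z / 4)) * R ≤ κ * R :=
    mul_le_mul_of_nonneg_right (min_le_left _ _) R0
  have k2 : min κ (lg * (ρ * z / 4)) * R ≤ lg * (ρ * z / 4) * R :=
    mul_le_mul_of_nonneg_right (min_le_right _ _) R0
  have n1 : 1 ≤ 2 ^ R := Nat.one_le_two_pow
  have ex : ∀ y : ℝ, ((2 ^ R : ℕ) : ℝ) ^ y = Real.exp (R * lg * y) := fun y => by
    rw [Real.rpow_def_of_pos (by positivity), Nat.cast_pow, Nat.cast_ofNat, log_two_pow]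
  refine H R Ω P d w S U L (by omega) hL1 (hL2.trans (Real.exp_le_exp.2 k1)) hb h0
    (hnear.trans (min_le_left _ _)) (hI.trans k1) (by linarith) (by linarith)
    ((hG.mono (by omega) (Real.exp_le_exp.2 k1)).lineB n1 hρ.le
      (Real.one_le_exp (by positivity)))
    ((hG.top (η := η) n1 (by omega) he hρ0 hρ c0 (min_le_right _ _) hz η0.le (min_le_left _ _)
      (min_le_right _ _) ?_ ?_).mono n1 (min_le_left _ _))
  · have a1 : (R₁ : ℝ) ≤ R := by exact_mod_cast (by omega : R₁ ≤ R)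
    have a2 : 2 ≤ R * η := by
      rw [div_lt_iff₀ η0] at hR₁
      nlinarith
    rw [Nat.cast_pow, Nat.cast_ofNat, ← Real.rpow_natCast, ← Real.rpow_mul (by norm_num)]
    refine le_trans (le_of_eq ?_) (Real.rpow_le_rpow_of_exponent_le (by norm_num) a2)
    norm_num
  · rw [ex]
    exact Real.exp_le_exp.2 (by linarith)

end Pool.Agent.MP_5168f5_an.H75T
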