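import Pool.Agent.MP_5168f5_an.H75T.Comb

/-! The finite sum-product step for a block from the combinatorial theorem. -/

namespace Pool.Agent.MP_5168f5_an.H75T

open H19 H17S H17F H95F H39F

theorem tieP : TieP := by
  intro N e he
  obtain ⟨q, c₁, hc₁, H⟩ := combB N e he
  refine ⟨q, c₁, hc₁, fun c' e' hc' he' => ?_⟩
  obtain ⟨h, n₀, c, hc, hh1, H⟩ := H c' e' hc' he'
  refine ⟨c * lg, mul_pos hc lg_pos, fun ε hε => ?_⟩
  set t := 8 * (h + 1) * (N + 1) + 2 with ht
  have hhR : (1 : ℝ) ≤ h := by exact_mod_cast hh1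
  have htR : (1 : ℝ) ≤ t := by exact_mod_cast (by omega : 1 ≤ t)
  set θ := lg / (2 * h) with hθ
  have hθ0 : 0 < θ := div_pos lg_pos (by linarith)
  have hθ1 : θ ≤ 1 := by
    rw [hθ, div_le_one (by linarith)]; linarith [lg_lt_one]
  set a := min ε 1 with ha
  have ha0 : 0 < a := lt_min hε one_pos
  have ha1 : a ≤ 1 := min_le_right _ _
  have ha2 : a ≤ ε := min_le_left _ _
  obtain ⟨R₁, hR₁⟩ := exists_nat_gt (192 * t / (a * θ))
  set κ := a * θ / (32 * t) with hκ
  have hκ0 : 0 < κ := by positivity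
  have hκ1 : κ * (32 * t) = a * θ := by rw [hκ]; field_simp
  have hκ2 : κ * 32 ≤ a * θ := by nlinarith
  refine ⟨R₁ + 4 * h + n₀, κ, hκ0, ?_⟩
  intro R Ω P d w S U L hR hL1 hL2 hb h0 hnear hI hz hr hLine hTop
  have hR0 : (0 : ℝ) ≤ R := by positivity
  have hRR : (R₁ : ℝ) ≤ R := by exact_mod_cast (by omega : R₁ ≤ R)
  have hR2 : 192 * t < a * θ * R := by
    rw [div_lt_iff₀ (by positivity)] at hR₁
    have := mul_le_mul_of_nonneg_left hRR (mul_pos ha0 hθ0).le
    linarith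
  have hd4 : 4 ≤ R / h := (Nat.le_div_iff_mul_le (by omega)).2 (by omega)
  have hd5 : R ≤ R / h * (2 * h) := by
    have h1 := Nat.lt_div_mul_add (a := R) (b := h) (by omega)
    have h2 : 1 * h ≤ R / h * h := Nat.mul_le_mul_right _ (by omega)
    have h3 : R / h * (2 * h) = 2 * (R / h * h) := by ring
    omega
  set k := 2 ^ (R / h) with hk
  have hk16 : 16 ≤ k := Nat.pow_le_pow_right (n := 2) (by norm_num) hd4
  have hkR : (16 : ℝ) ≤ k := by exact_mod_cast hk16
  have hlog : θ * R ≤ Real.log k := by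
    rw [hk, Nat.cast_pow, Nat.cast_ofNat, log_two_pow, hθ, div_mul_eq_mul_div,
      div_le_iff₀ (by linarith)]
    have h1 : (R : ℝ) ≤ (R / h : ℕ) * (2 * h) := by exact_mod_cast hd5
    nlinarith [lg_pos]
  have hmain : 16 * t * (κ * R + 6) < a * Real.log k := by
    have h1 := mul_le_mul_of_nonneg_left hlog ha0.le
    have h2 : 16 * t * (κ * R) = a * θ * R / 2 := by rw [← hκ1]; ring
    nlinarith
  have hek : Real.exp (κ * R) ≤ k := by
    rw [← Real.le_log_iff_exp_le (by linarith)]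
    refine le_trans (mul_le_mul_of_nonneg_right ?_ hR0) hlog
    nlinarith
  have hLk : L ≤ k := hL2.trans hek
  have hlk : 0 ≤ Real.log k := Real.log_nonneg (by linarith)
  have hκR : 0 ≤ κ * R + 6 := by positivity
  have h8 : κ * R + 6 < a / 8 * Real.log k := by nlinarith
  have hB : Bnd P d w (2 ^ R) k :=
    { z := fun ω hω => by exact_mod_cast (hb ω hω).1
      r := fun ω hω => by exact_mod_cast (hb ω hω).2.1
      g := fun ω hω => (hb ω hω).2.2.1.trans (by
        push_cast; exact mul_le_mul_of_nonneg_right hLk (by positivity))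
      p := fun ω hω => (hb ω hω).2.2.2.trans (by
        push_cast; exact mul_le_mul_of_nonneg_right hLk (by positivity)) }
  by_contra hn
  set G : D N → D N → Prop := fun x y => (∃ u ∈ U, ‖bil R x y - u‖ ≤ L) ∧
    2 ^ R * Real.exp (-(c * lg * R)) < ‖bil R x y‖ ∧
    pv P (fun ω => (d ω).1) x.1 ≤ k / (2 ^ R : ℕ) ∧
    pv P (fun ω => (w ω).1) y.1 ≤ k / (2 ^ R : ℕ) with hG
  have p1 := heavy P (fun ω => (d ω).1) (by omega : 1 ≤ k)
    (fun ω hω => (hB.z ω hω).trans (by push_cast; linarith [show (0 : ℤ) < 2 ^ R by positivity]))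
    hz h8
  have p2 := heavy P (fun ω => (w ω).1) (by omega : 1 ≤ k) hB.r hr h8
  have p3 : a / 2 ≤ pb P fun ω => G (d ω) (w ω) := by
    have u1 := pb_union P (E := fun ω => 2 ^ R * Real.exp (-(c * lg * R)) < ‖bil R (d ω) (w ω)‖)
      (A := fun ω => G (d ω) (w ω)) (B := fun ω => (¬∃ u ∈ U, ‖bil R (d ω) (w ω) - u‖ ≤ L) ∨
        (k : ℝ) / (2 ^ R : ℕ) < pv P (fun ω => (d ω).1) (d ω).1 ∨
        (k : ℝ) / (2 ^ R : ℕ) < pv P (fun ω => (w ω).1) (w ω).1)
      fun ω _ h1 => by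
        by_contra h2
        rw [not_or, not_or, not_or, not_not, not_lt, not_lt] at h2
        exact h2.1 ⟨h2.2.1, h1, h2.2.2.1, h2.2.2.2⟩
    have u2 := pb_union P (E := fun ω => (¬∃ u ∈ U, ‖bil R (d ω) (w ω) - u‖ ≤ L) ∨
        (k : ℝ) / (2 ^ R : ℕ) < pv P (fun ω => (d ω).1) (d ω).1 ∨
        (k : ℝ) / (2 ^ R : ℕ) < pv P (fun ω => (w ω).1) (w ω).1)
      fun ω _ h1 => h1
    have u3 := pb_union P (E := fun ω =>
        (k : ℝ) / (2 ^ R : ℕ) < pv P (fun ω => (d ω).1) (d ω).1 ∨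
        (k : ℝ) / (2 ^ R : ℕ) < pv P (fun ω => (w ω).1) (w ω).1)
      fun ω _ h1 => h1
    have u4 : κ * 32 ≤ a := by nlinarith
    have u5 := not_le.1 hn
    linarith
  have p4 := den_ge P d w G (by positivity) p3 hI
  have p5 : 1 ≤ k * den P d w G ^ t := by
    refine le_trans ?_ (mul_le_mul_of_nonneg_left
      (pow_le_pow_left₀ (Real.exp_pos _).le p4 t) (by positivity))
    rw [← Real.exp_nat_mul, ← Real.exp_log (show (0 : ℝ) < k by linarith), ← Real.exp_add]
    refine Real.one_le_exp ?_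
    have h1 : t * ((κ * R + lg) / (a / 2)) ≤ Real.log k := by
      rw [← mul_div_assoc, div_le_iff₀ (by positivity)]
      have h2 : t * (κ * R + lg) ≤ t * (κ * R + 6) :=
        mul_le_mul_of_nonneg_left (by linarith [lg_lt_one]) (by linarith)
      have h3 : 0 ≤ t * (κ * R + 6) := by positivity
      linarith
    linarith
  obtain ⟨x, -, y, -, g1, g2⟩ := H (2 ^ R) k S U Ω P d w G
    (le_trans (by omega) (Nat.lt_two_pow_self (n := R)).le) hk16
    (by rw [hk, ← pow_mul]; exact Nat.pow_le_pow_right (by norm_num) (Nat.div_mul_le_self R h))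
    (by rw [hk, ← pow_mul]; exact Nat.pow_le_pow_right (by norm_num) hd5)
    (hLine.mono le_rfl hek) hTop hB h0 (fun x _ y _ g => ⟨by
      obtain ⟨u, hu, h1⟩ := g.1
      exact ⟨u, hu, by rw [MM_eq]; exact h1.trans hLk⟩, g.2.2⟩) p5
  have e1 : ((2 ^ R : ℕ) : ℝ) ^ (-c) = Real.exp (-(c * lg * R)) := by
    rw [Real.rpow_def_of_pos (by positivity), Nat.cast_pow, Nat.cast_ofNat, log_two_pow]
    ring_nf
  rw [MM_eq, e1, Nat.cast_pow, Nat.cast_ofNat] at g2
  exact absurd g1.2.1 (not_lt.2 g2)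

end Pool.Agent.MP_5168f5_an.H75T
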