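import Pool.Agent.MP_5168f5_an.H75T.Spec
import Pool.Agent.MP_5168f5_an.H95F.Main

/-! Segments with directions in a block: longer ranges, test multipliers, linear relations. -/

namespace Pool.Agent.MP_5168f5_an.H75T

open H17S H95F Finset

variable {k : ℕ}

theorem Sup.smul {S : Set (Fin k)} {v : V k} (h : Sup S v) (t : ℝ) : Sup S (t • v) :=
  fun i hi => by simp [h i hi]

theorem Sup.sub {S : Set (Fin k)} {v v' : V k} (h : Sup S v) (h' : Sup S v') : Sup S (v - v') :=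
  fun i hi => by simp [h i hi, h' i hi]

theorem Sup.sum {S : Set (Fin k)} {ι : Type} (s : Finset ι) {f : ι → V k}
    (h : ∀ i ∈ s, Sup S (f i)) : Sup S (∑ i ∈ s, f i) := fun j hj => by
  rw [Finset.sum_apply]
  exact Finset.sum_eq_zero fun i hi => h i hi j hj

/-- `Seg` for longer vectors and longer ranges. -/
theorem seg2 {B : V k → Prop} {U : Set (V k)} {n q : ℕ} {μ lo bd : ℝ} (hn : 1 ≤ n)
    (hB : ∀ (t : ℝ) (v : V k), B v → B (t • v)) (hL : Seg B U n q μ lo bd) (A : ℕ) (v : V k)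
    (T : Finset ℤ) (hA : 1 ≤ A) (hv0 : B v) (hv1 : A * lo ≤ ‖v‖) (hv2 : ‖v‖ ≤ A * n)
    (hT : ∀ t ∈ T, |t| ≤ A * n)
    (hNr : ∀ t ∈ T, ∀ t' ∈ T, Nr U q μ ((((t : ℝ) - t') / n) • v)) :
    (T.card : ℝ) ≤ 3 * A ^ 2 * bd := by
  have hA' : (1 : ℤ) ≤ A := by exact_mod_cast hA
  have hn' : (1 : ℤ) ≤ n := by exact_mod_cast hn
  have hAR : (1 : ℝ) ≤ A := by exact_mod_cast hA
  have hA0 : (0 : ℝ) < A := by linarith
  obtain ⟨T', h1, h2, h3⟩ := pig1 T (fun t => (A : ℤ) * (t + A * n) / n)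
    (Finset.Icc (0 : ℤ) (2 * (A : ℤ) ^ 2)) fun t ht => LINE2A.cls hA' hn' (hT t ht)
  have hinj : Set.InjOn (fun t : ℤ => (A : ℤ) * (t + A * n) % n) T' := by
    intro t ht t' ht' h
    have h4 := LINE2A.diff (h3 t ht t' ht')
    have h5 : (A : ℤ) * (t - t') = 0 := by
      rw [← h4]
      exact sub_eq_zero.2 h
    rcases mul_eq_zero.1 h5 with h6 | h6
    · omega
    · exact sub_eq_zero.1 h6
  have hnv : ‖(A : ℝ)⁻¹ • v‖ = ‖v‖ / A := by
    rw [norm_smul, norm_inv, Real.norm_of_nonneg hA0.le, div_eq_inv_mul]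
  have key := hL ((A : ℝ)⁻¹ • v) (T'.image fun t : ℤ => (A : ℤ) * (t + A * n) % n) (hB _ _ hv0)
    (by rw [hnv, le_div_iff₀ hA0]; linarith) (by rw [hnv, div_le_iff₀ hA0]; linarith)
    (by
      intro x hx
      obtain ⟨t, -, rfl⟩ := Finset.mem_image.1 hx
      exact Finset.mem_Ico.2 ⟨Int.emod_nonneg _ (by omega), Int.emod_lt_of_pos _ (by omega)⟩)
    (by
      intro x hx x' hx'
      obtain ⟨t, ht, rfl⟩ := Finset.mem_image.1 hx
      obtain ⟨t', ht', rfl⟩ := Finset.mem_image.1 hx'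
      have h4 := congrArg (Int.cast : ℤ → ℝ) (LINE2A.diff (h3 t ht t' ht'))
      rw [Int.cast_sub] at h4
      rw [h4, smul_smul]
      convert hNr t (h1 ht) t' (h1 ht') using 2
      push_cast
      field_simp)
  rw [Finset.card_image_of_injOn hinj] at key
  have hc : ((Finset.Icc (0 : ℤ) (2 * (A : ℤ) ^ 2)).card : ℝ) ≤ 3 * A ^ 2 := by
    have e1 : (Finset.Icc (0 : ℤ) (2 * (A : ℤ) ^ 2)).card = 2 * A ^ 2 + 1 := by
      rw [Int.card_Icc]
      have e2 : (2 * (A : ℤ) ^ 2 + 1 - 0) = ((2 * A ^ 2 + 1 : ℕ) : ℤ) := by push_cast; ring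
      rw [e2, Int.toNat_natCast]
    rw [e1]
    push_cast
    nlinarith
  have h2' : (T.card : ℝ) ≤ (Finset.Icc (0 : ℤ) (2 * (A : ℤ) ^ 2)).card * T'.card := by
    exact_mod_cast h2
  exact h2'.trans (mul_le_mul hc key (Nat.cast_nonneg _) (by positivity))

/-- `Line2` for directions in the block `S`. -/
def Line2B (S : Set (Fin k)) (U : Set (V k)) (n q : ℕ) (L₀ e : ℝ) : Prop :=
  ∀ q' ≤ q, ∀ (A : ℕ) (v : V k) (μ L : ℝ) (T : Finset ℤ), Sup S v → 1 ≤ A → 1 ≤ μ → 1 ≤ L →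
    L₀ ≤ L → A * μ * L ≤ ‖v‖ → ‖v‖ ≤ A * n → (∀ t ∈ T, |t| ≤ A * n) →
    (∀ t ∈ T, ∀ t' ∈ T, Nr U q' μ ((((t : ℝ) - t') / n) • v)) →
    (T.card : ℝ) ≤ 3 * A ^ 2 * (n * L ^ (-e))

theorem line2B {S : Set (Fin k)} {U : Set (V k)} {n q : ℕ} {L₀ e : ℝ} (hn : 1 ≤ n)
    (h : LineB S U n q L₀ e) : Line2B S U n q L₀ e :=
  fun q' hq A v μ L T h0 hA hμ _ hL0 h1 h2 h3 h4 =>
    seg2 hn (fun t _ hv => hv.smul t) (h q' hq μ L hμ hL0) A v T hA h0 (by rwa [← mul_assoc])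
      h2 h3 h4

theorem LineB.mono {S : Set (Fin k)} {U : Set (V k)} {n q q' : ℕ} {L₀ L₁ e : ℝ}
    (h : LineB S U n q L₀ e) (hq : q' ≤ q) (hL : L₀ ≤ L₁) : LineB S U n q' L₁ e :=
  fun q'' h1 μ L h2 h3 => h q'' (h1.trans hq) μ L h2 (hL.trans h3)

open TUPA in
/-- A finite set of multipliers that detects large vectors of the block. -/
theorem tupB (S : Set (Fin k)) (U : Set (V k)) (n q q' m A : ℕ) (L₀ e μ L : ℝ) (hn : 1 ≤ n)
    (hL : Line2B S U n q L₀ e) (hq : 2 * q' ≤ q) (hA : 1 ≤ A) (hμ : 1 ≤ μ) (hL1 : 1 ≤ L)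
    (hL0 : L₀ ≤ L) (hnum : (3 * A * n : ℝ) ^ k * (3 * A ^ 2 * L ^ (-e)) ^ m < 1) :
    ∃ t : Fin m → ℤ, (∀ l, t l ∈ Finset.Ico (0 : ℤ) n) ∧ ∀ v : V k, Sup S v → ‖v‖ + 1 ≤ A * n →
      (∀ l, Nr U q' μ (((t l : ℝ) / n) • v)) → ‖v‖ ≤ A * (2 * μ + 2) * L + 1 := by
  classical
  have hnR : (1 : ℝ) ≤ n := by exact_mod_cast hn
  have hAR : (1 : ℝ) ≤ A := by exact_mod_cast hA
  have hn0 : (0 : ℝ) < n := by linarith
  have hLe : 0 ≤ L ^ (-e) := Real.rpow_nonneg (by linarith) _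
  let cs : Z k → V k := fun w j => (w j : ℝ)
  let B : Finset (Z k) :=
    (Fintype.piFinset fun _ : Fin k => Finset.Icc (-((A * n : ℕ) : ℤ)) (A * n : ℕ)).filter
      fun w => A * (2 * μ + 2) * L ≤ ‖cs w‖ ∧ Sup S (cs w)
  let T : Z k → Finset ℤ := fun w =>
    (Finset.Ico (0 : ℤ) n).filter fun t => Nr U q' (μ + 1) (((t : ℝ) / n) • cs w)
  have hB : (B.card : ℝ) ≤ (3 * A * n : ℝ) ^ k := by
    have h1 := card_box k (A * n) (Nat.one_le_iff_ne_zero.2 (by positivity))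
    have h2 : (B.card : ℝ) ≤ ((Fintype.piFinset fun _ : Fin k =>
        Finset.Icc (-((A * n : ℕ) : ℤ)) (A * n : ℕ)).card : ℝ) := by
      exact_mod_cast Finset.card_filter_le _ _
    refine h2.trans (h1.trans_eq ?_)
    push_cast
    ring
  have hT : ∀ w ∈ B, ((T w).card : ℝ) ≤ 3 * A ^ 2 * (n * L ^ (-e)) := by
    intro w hw
    obtain ⟨hw1, hw2, hw3⟩ := Finset.mem_filter.1 hw
    refine hL (q' + q') (by omega) A (cs w) (2 * μ + 2) L (T w) hw3 hA (by linarith) hL1 hL0 hw2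
      ?_ ?_ ?_
    · refine (pi_norm_le_iff_of_nonneg (by positivity)).2 fun j => ?_
      have h := Finset.mem_Icc.1 (Fintype.mem_piFinset.1 hw1 j)
      have h' : |w j| ≤ ((A * n : ℕ) : ℤ) := abs_le.2 h
      have h'' : ((|w j| : ℤ) : ℝ) ≤ (((A * n : ℕ) : ℤ) : ℝ) := by exact_mod_cast h'
      simpa [cs, Real.norm_eq_abs] using h''
    · intro t ht
      have h := Finset.mem_Ico.1 (Finset.mem_filter.1 ht).1
      have hA' : (1 : ℤ) ≤ A := by exact_mod_cast hA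
      rw [abs_of_nonneg h.1]
      nlinarith [h.2, h.1]
    · intro t ht t' ht'
      have h := (Finset.mem_filter.1 ht).2.sub (Finset.mem_filter.1 ht').2
      rw [← sub_smul, ← sub_div] at h
      exact h.mono (by linarith)
  obtain ⟨t, ht, hout⟩ := exists_out m (Finset.Ico (0 : ℤ) n) B T _ _ hB (by positivity) hT (by
    have e1 : ((Finset.Ico (0 : ℤ) n).card : ℝ) = n := by simp
    rw [e1]
    calc (3 * A * n : ℝ) ^ k * (3 * A ^ 2 * (n * L ^ (-e))) ^ m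
        = (3 * A * n : ℝ) ^ k * (3 * A ^ 2 * L ^ (-e)) ^ m * (n : ℝ) ^ m := by
          have e2 : (3 * A ^ 2 * (n * L ^ (-e)) : ℝ) = 3 * A ^ 2 * L ^ (-e) * n := by ring
          rw [e2, mul_pow (3 * A ^ 2 * L ^ (-e) : ℝ), ← mul_assoc]
      _ < 1 * (n : ℝ) ^ m := mul_lt_mul_of_pos_right hnum (pow_pos hn0 m)
      _ = (n : ℝ) ^ m := one_mul _)
  refine ⟨t, ht, fun v hS hv hN => ?_⟩
  by_contra hcon
  push Not at hcon
  have hd : ‖cs (fun j => ⌊v j⌋) - v‖ ≤ 1 := norm_floor v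
  have hw : (fun j => ⌊v j⌋) ∈ B := by
    refine Finset.mem_filter.2 ⟨Fintype.mem_piFinset.2 fun j => Finset.mem_Icc.2 (abs_le.1 ?_), ?_,
      fun j hj => by simp [cs, hS j hj]⟩
    · have h1 : ‖cs (fun j => ⌊v j⌋)‖ ≤ A * n := by
        have := norm_le_norm_add_norm_sub' (cs fun j => ⌊v j⌋) v
        linarith
      have h2 := (norm_le_pi_norm (cs fun j => ⌊v j⌋) j).trans h1
      simp only [cs, Real.norm_eq_abs] at h2
      have h3 : ((|⌊v j⌋| : ℤ) : ℝ) ≤ (((A * n : ℕ) : ℤ) : ℝ) := by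
        push_cast; exact h2
      exact_mod_cast h3
    · have h2 := norm_sub_norm_le v (cs fun j => ⌊v j⌋)
      rw [norm_sub_rev] at h2
      linarith
  obtain ⟨l, hl⟩ := hout _ hw
  refine hl (Finset.mem_filter.2 ⟨ht l, (hN l).near ?_⟩)
  have h := Finset.mem_Ico.1 (ht l)
  have h0 : (0 : ℝ) ≤ t l := by exact_mod_cast h.1
  have h1 : (t l : ℝ) ≤ n := by exact_mod_cast h.2.le
  rw [← smul_sub, norm_smul, Real.norm_eq_abs, abs_of_nonneg (by positivity)]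
  have h2 : (t l : ℝ) / n ≤ 1 := (div_le_one hn0).2 h1
  have h3 : (t l : ℝ) / n * ‖cs (fun j => ⌊v j⌋) - v‖ ≤ 1 :=
    mul_le_one₀ h2 (norm_nonneg _) hd
  linarith

open DEPA in
/-- Any `J` scalars satisfy a real linear relation. -/
theorem depB (S : Set (Fin k)) (U : Set (V k)) (Γ W : Finset (D k)) (n K m J s q : ℕ)
    (L₀ L e : ℝ) (hX : (ctx Γ n K).OK) (hW : Wd U Γ W n K) (hS : ∀ a ∈ Γ, Sup S (gR k a))
    (hL : Line2B S U n q L₀ e) (hq : 4 * J ≤ q) (hJ : 1 ≤ J) (hL1 : 1 ≤ L) (hL0 : L₀ ≤ L)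
    (htup : (3 * (3 * J * K) * n : ℝ) ^ k * (3 * (3 * J * K) ^ 2 * L ^ (-e)) ^ m < 1)
    (hpair : (3 * J * K * n) ^ (k * m) * K ^ (3 * m * J) < s ^ J) (c : Fin J → ℝ)
    (hc : ∀ i, c i ∈ Set.Icc (0 : ℝ) 1) : ∃ l : Fin J → ℝ, ‖l‖ = 1 ∧
    (ctx Γ n K).Sm (3 * (J * (2 * m + 1))) (cmb c l) (73 * s * J ^ 2 * K ^ 2 * L) := by
  have hn : 1 ≤ n := hX.hn
  have hK : 16 ≤ K := hX.hK
  have hn' : (1 : ℝ) ≤ n := by exact_mod_cast hn
  have hJK : 1 ≤ J * K := Nat.mul_pos hJ (by omega)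
  have hJK' : (1 : ℝ) ≤ J * K := by exact_mod_cast hJK
  obtain ⟨t, ht, htv⟩ := tupB S U n q (J * (1 + 1)) m (3 * J * K) L₀ e (11 * (J * K)) L hn hL
    (by omega) (by rw [mul_assoc]; omega) (by linarith) hL1 hL0 (by push_cast; exact htup)
  obtain ⟨y, y', ω, ω', hy, hys, hω, hfl, hp⟩ := rowPAIR k U Γ W n K m J s t c hn hK hJ hW ht hc hpair
  have h1 : ∀ v, ∃ N ⊆ Γ, n ≤ K * (N.image Prod.fst).card ∧
      (v ∈ W → ∀ d ∈ N, ∃ a ∈ U, ‖MM n d v - a‖ ≤ K) := fun v => by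
    by_cases hv : v ∈ W
    · obtain ⟨N, a1, a2, a3⟩ := hW.nb v hv
      exact ⟨N, a1, a2, fun _ => a3⟩
    · exact ⟨Γ, subset_rfl, hX.wide, fun h => absurd h hv⟩
  choose Nb b1 b2 b3 using h1
  obtain ⟨Z, d, s0, hF, hd⟩ := rowBUILD _ _ _ hX (Fin J × Option (Fin m × Bool)) (fun a => c a.1)
    (fun a => a.2.elim Γ fun b => Nb (bif b.2 then ω a.1 b.1 else ω' a.1 b.1)) (fun a => hc _)
    (by rintro ⟨i, _ | b⟩; exacts [subset_rfl, b1 _])
    (by rintro ⟨i, _ | b⟩; exacts [hX.wide, b2 _])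
  set u : Fin J → ℝ := fun i => (y i : ℝ) - y' i with hu
  have hu1 : 1 ≤ ‖u‖ := by
    obtain ⟨i, hi⟩ := Function.ne_iff.1 hy
    refine le_trans ?_ (norm_le_pi_norm u i)
    have : (1 : ℤ) ≤ |(y i : ℤ) - y' i| := Int.one_le_abs (by omega)
    show 1 ≤ |(y i : ℝ) - y' i|
    exact_mod_cast this
  have hs : (0 : ℝ) < s := by exact_mod_cast (Nat.zero_le _).trans_lt (hys ⟨0, hJ⟩).1
  refine ⟨‖u‖⁻¹ • u, norm_smul_inv_norm (𝕜 := ℝ) (norm_pos_iff.1 (by linarith)), Z, d, s0,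
    hF.mono (by show 1 ≤ K; omega) (by simp [mul_comm]) fun x hx => ?_, fun z hz z' hz' => ?_⟩
  · obtain ⟨i, hi⟩ := mem_support_cmb _ _ hx
    exact ⟨(i, none), hi⟩
  set E : Fin J → D k := fun i => d (c i) z - d (c i) z' with hE
  have mc : ∀ i, c i ∈ Set.range fun a : Fin J × Option (Fin m × Bool) => c a.1 :=
    fun i => ⟨(i, none), rfl⟩
  have hg : ∀ i, ‖gR k (E i)‖ ≤ 2 * K * n := fun i => by
    have a1 : ‖gR k _‖ ≤ (K : ℝ) * n := hX.gb _ (hF.mem _ (mc i) z hz)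
    have a2 : ‖gR k _‖ ≤ (K : ℝ) * n := hX.gb _ (hF.mem _ (mc i) z' hz')
    rw [hE, map_sub]
    linarith [norm_sub_le (gR k (d (c i) z)) (gR k (d (c i) z'))]
  have hζ : ∀ i, |((E i).1 : ℝ) - c i * (z - z')| ≤ 2 := fun i => by
    have a1 : |((d (c i) z).1 : ℝ) - _ - _| ≤ 1 := hF.zet _ (mc i) z hz
    have a2 : |((d (c i) z').1 : ℝ) - _ - _| ≤ 1 := hF.zet _ (mc i) z' hz'
    rw [abs_le] at *
    simp only [hE, Prod.fst_sub, Int.cast_sub]
    constructor <;> linarith [a1.1, a1.2, a2.1, a2.2]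
  have hzz : |(z : ℝ) - z'| ≤ n := by
    have a1 : z ∈ Ico (0 : ℤ) n := hF.sub hz
    have a2 : z' ∈ Ico (0 : ℤ) n := hF.sub hz'
    rw [mem_Ico] at a1 a2
    have : |z - z'| ≤ (n : ℤ) := by rw [abs_le]; omega
    exact_mod_cast this
  have hM : ∀ i l b, Nr U 1 (K + K) (MM n (E i) (bif b then ω i l else ω' i l)) := fun i l b => by
    obtain ⟨x, hx, x', hx', e1⟩ := hd (i, some (l, b)) z hz z' hz'
    have hv : (bif b then ω i l else ω' i l) ∈ W := by cases b; exacts [(hω i l).2, (hω i l).1]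
    obtain ⟨a, ha, a1⟩ := b3 _ hv x hx
    obtain ⟨a', ha', a2⟩ := b3 _ hv x' hx'
    rw [show E i = x - x' from e1, MM_sub]
    exact nr_pair ha ha' a1 a2
  set F : V k := ∑ i, (u i / s) • gR k (E i) with hFd
  have hF1 : ‖F‖ ≤ J * (2 * K * n) := by
    refine (norm_sum_le _ _).trans ((sum_le_card_nsmul _ _ (2 * K * n : ℝ) fun i _ => ?_).trans
      (by simp))
    have a1 : (y i : ℝ) < s := by exact_mod_cast (hys i).1
    have a2 : (y' i : ℝ) < s := by exact_mod_cast (hys i).2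
    have a3 : |u i / s| ≤ 1 := by
      rw [abs_div, abs_of_pos hs, div_le_one hs, abs_le]
      constructor <;> simp only [hu] <;> linarith [Nat.cast_nonneg (α := ℝ) (y i),
        Nat.cast_nonneg (α := ℝ) (y' i)]
    rw [norm_smul]
    exact (mul_le_of_le_one_left (norm_nonneg _) a3).trans (hg i)
  have hF0 : Sup S F := Sup.sum _ fun i _ => Sup.smul (by
    rw [hE, map_sub]
    exact (hS _ (hF.mem _ (mc i) z hz)).sub (hS _ (hF.mem _ (mc i) z' hz'))) _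
  have hF2 := htv F hF0 (by push_cast; nlinarith) fun l => by
    have a1 := Nr.sum univ fun i _ => (hM i l true).sub (hM i l false)
    rw [card_univ, Fintype.card_fin] at a1
    refine a1.near ?_
    have e1 : ((t l : ℝ) / n) • F - ∑ i, (MM n (E i) (ω i l) - MM n (E i) (ω' i l)) =
        ∑ i, ((((y i : ℝ) / s * t l - (y' i : ℝ) / s * t l -
          (((ω i l).1 - (ω' i l).1 : ℤ) : ℝ)) / n) • gR k (E i) -
          ((((E i).1 : ℝ) - c i * (z - z')) / n) • (gR k (ω i l) - gR k (ω' i l))) -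
        (((z : ℝ) - z') / n) • ∑ i, c i • (gR k (ω i l) - gR k (ω' i l)) := by
      rw [hFd, smul_sum, smul_sum, ← sum_sub_distrib, ← sum_sub_distrib]
      refine sum_congr rfl fun i _ => ?_
      simp only [MM, hu, Int.cast_sub]
      match_scalars <;> ring
    have a2 : ‖(((z : ℝ) - z') / n) • ∑ i, c i • (gR k (ω i l) - gR k (ω' i l))‖ ≤ 1 := by
      rw [norm_smul, Real.norm_eq_abs, abs_div, Nat.abs_cast]
      exact mul_le_one₀ ((div_le_one (by linarith)).2 hzz) (norm_nonneg _) (hp l)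
    simp only [cond_true, cond_false]
    rw [e1]
    refine (add_le_add ((norm_sub_le _ _).trans (add_le_add ((norm_sum_le _ _).trans
      (sum_le_card_nsmul _ _ (1 * (2 * K) + 2 * (2 * K) : ℝ) fun i _ => (norm_sub_le _ _).trans
        (add_le_add (small (by linarith) (by rw [hfl]; exact fl _ _) (hg i))
          (small (by linarith) (hζ i) ((norm_sub_le _ _).trans ?_))))) a2)) le_rfl).trans ?_
    · linarith [hW.pb _ (hω i l).1, hW.pb _ (hω i l).2]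
    · simp only [card_univ, Fintype.card_fin, nsmul_eq_mul]
      linarith
  have e2 : ∑ i, (‖u‖⁻¹ • u) i • (ctx Γ n K).g (d (c i) z - d (c i) z') = (s / ‖u‖) • F := by
    rw [hFd, smul_sum]
    refine sum_congr rfl fun i _ => ?_
    rw [smul_smul, Pi.smul_apply, smul_eq_mul]
    congr 1
    field_simp
  rw [lc_cmb, e2, norm_smul, Real.norm_of_nonneg (by positivity)]
  push_cast at hF2
  have h3 : ‖F‖ ≤ 73 * (J * K) ^ 2 * L := by
    have : J * K * L ≤ (J * K) ^ 2 * L := by gcongr; nlinarith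
    nlinarith
  calc _ ≤ s * (73 * (J * K) ^ 2 * L) := by gcongr; exact div_le_self hs.le hu1
    _ = _ := by ring

end Pool.Agent.MP_5168f5_an.H75T
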