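import Pool.Agent.MP_5168f5_an.H75T.Seg

/-! The wide vectors lie near a line with slope in the block. -/

namespace Pool.Agent.MP_5168f5_an.H75T

open H17S H95F Finset

variable {k : ℕ}

theorem finT (U : Set (V k)) (Γ S W : Finset (D k)) (n K b A : ℕ) (μ lo bd B ν : ℝ) (γ : V k)
    (hX : (ctx Γ n K).OK) (hW : Wd U Γ W n K) (hL : Seg (fun _ => True) U n 1 μ lo bd)
    (hγ : ‖γ‖ ≤ B) (hA : K + K * B ≤ A) (hS : n ≤ K ^ b * (S.image Prod.fst).card)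
    (hS' : ∀ σ ∈ S, (∃ x ∈ Γ, ∃ x' ∈ Γ, σ = x - x') ∧ ‖gR k σ - (σ.1 : ℝ) • γ‖ ≤ ν)
    (hμ : 2 * K + K * (2 * ν) ≤ μ) (hfin : (K : ℝ) ^ (b + 3) * (3 * A ^ 2 * bd) < n) :
    ∀ v ∈ W, ‖gR k v + (v.1 : ℝ) • γ‖ ≤ A * lo := by
  intro v hv
  have hn : 1 ≤ n := hX.hn
  have hK : 16 ≤ K := hX.hK
  have hn' : (0 : ℝ) < n := by exact_mod_cast hn
  have hK' : (16 : ℝ) ≤ K := by exact_mod_cast hK
  have hB : 0 ≤ B := (norm_nonneg _).trans hγ
  have hA' : (1 : ℝ) ≤ A := by nlinarith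
  have hA1 : 1 ≤ A := by exact_mod_cast hA'
  obtain ⟨N, hN, hN1, hN2⟩ := hW.nb v hv
  obtain ⟨N', hN', hc, hd⟩ := rowMATCH _ _ (ctx Γ n K) hX b N S hN hN1 hS
    fun σ hσ => (hS' σ hσ).1
  have hc' : n ≤ K ^ (b + 3) * (N'.image Prod.fst).card := hc
  by_contra hbig
  have hv1 : |(v.1 : ℝ)| ≤ K * n := by exact_mod_cast hW.rb v hv
  have hup : ‖gR k v + (v.1 : ℝ) • γ‖ ≤ A * n := by
    refine (norm_add_le _ _).trans ?_
    rw [norm_smul, Real.norm_eq_abs]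
    have h1 := hW.pb v hv
    have h2 : |(v.1 : ℝ)| * ‖γ‖ ≤ K * n * B :=
      mul_le_mul hv1 hγ (norm_nonneg _) (by positivity)
    nlinarith
  have hT := seg2 hn (fun _ _ _ => trivial) hL A _ (N'.image Prod.fst) hA1 trivial
    (not_le.1 hbig).le hup (by
      intro t ht
      obtain ⟨x, hx, rfl⟩ := Finset.mem_image.1 ht
      have h1 : |x.1| ≤ n := hX.zb x (hN (hN' hx))
      have h2 : (1 : ℤ) ≤ A := by exact_mod_cast hA1
      nlinarith [Int.natCast_nonneg n]) (by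
      intro t ht t' ht'
      obtain ⟨x, hx, rfl⟩ := Finset.mem_image.1 ht
      obtain ⟨x', hx', rfl⟩ := Finset.mem_image.1 ht'
      obtain ⟨a, ha, h1⟩ := hN2 x (hN' hx)
      obtain ⟨a', ha', h2⟩ := hN2 x' (hN' hx')
      obtain ⟨σ, hσ, σ', hσ', e1⟩ := hd x hx x' hx'
      have h3 := FINA.dev (hS' σ hσ).2 (hS' σ' hσ').2
      rw [← e1] at h3
      have h4 := FINA.close hn (hW.rb v hv) h3
      rw [MM_sub, Prod.fst_sub, Int.cast_sub] at h4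
      exact (nr_pair ha ha' h1 h2).near (by linarith))
  have h5 : (n : ℝ) ≤ K ^ (b + 3) * (N'.image Prod.fst).card := by exact_mod_cast hc'
  have h6 : (0 : ℝ) < K ^ (b + 3) := by positivity
  have h8 := mul_le_mul_of_nonneg_left hT h6.le
  linarith

open Classical in
/-- The part of `v` in the block `S`. -/
noncomputable def cut (S : Set (Fin k)) (v : V k) : V k := fun i => if i ∈ S then v i else 0

theorem sup_cut (S : Set (Fin k)) (v : V k) : Sup S (cut S v) := fun i hi => by simp [cut, hi]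

theorem norm_cut (S : Set (Fin k)) (v : V k) : ‖cut S v‖ ≤ ‖v‖ :=
  (pi_norm_le_iff_of_nonneg (norm_nonneg _)).2 fun i => by
    by_cases h : i ∈ S
    · simpa [cut, h] using norm_le_pi_norm v i
    · simp [cut, h]

theorem cut_dev {S : Set (Fin k)} {g : V k} (hg : Sup S g) (t : ℝ) (γ : V k) :
    ‖g - t • cut S γ‖ ≤ ‖g - t • γ‖ := by
  refine le_trans (le_of_eq ?_) (norm_cut S _)
  congr 1
  funext i
  by_cases h : i ∈ S
  · simp [cut, h]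
  · simp [cut, h, hg i h]

/-- The combinatorial theorem for a block. -/
theorem setB (k : ℕ) (e : ℝ) (e0 : 0 < e) : ∃ (q C : ℕ) (c : ℝ), 0 < c ∧ ∀ e' : ℝ, 0 < e' →
    ∃ (n₀ : ℕ) (κ : ℝ), 0 < κ ∧ ∀ (c' : ℝ) (n K : ℕ) (S : Set (Fin k)) (U : Set (V k))
      (Γ T W : Finset (D k)), n₀ ≤ n → 2 ≤ K → (K : ℝ) ≤ (n : ℝ) ^ κ →
      LineB S U n q ((n : ℝ) ^ κ) e → Top U n c c' e' → T.card ≤ K * n →
      (∀ a ∈ Γ, ∀ b ∈ Γ, a - b ∈ T) → (∀ a ∈ Γ, |a.1| ≤ n) → (∀ a ∈ Γ, ‖gR k a‖ ≤ K * n) →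
      (∀ a ∈ Γ, Sup S (gR k a)) → Wd U Γ W n K →
      ∃ γ : V k, Sup S γ ∧ ‖γ‖ ≤ (K : ℝ) ^ C ∧
        ∀ v ∈ W, ‖gR k v + (v.1 : ℝ) • γ‖ ≤ (K : ℝ) ^ C * (n * (n : ℝ) ^ (-c')) := by
  obtain ⟨m, J, n₀, c, κ, c0, k0, J1, hN⟩ := rowNUM k e e0
  refine ⟨4 * J, 15 * (ex m J + 4), c, c0, fun e' e1 => ?_⟩
  obtain ⟨κ₁, k1, n₁, hN'⟩ := NUMA.ev 12 (4 * ex m J + 13) e' e1
  refine ⟨max (max n₀ n₁) 1, min κ κ₁, lt_min k0 k1,
    fun c' n K S U Γ T W hn K2 Kn hL hTop hT hΓ zb gb hS hW => ?_⟩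
  have n1 : 1 ≤ n := (le_max_right _ _).trans hn
  have n1' : (1 : ℝ) ≤ n := by exact_mod_cast n1
  have KK : K ≤ K ^ 15 := Nat.le_self_pow (by norm_num) K
  have K16 : 16 ≤ K ^ 15 := le_trans (by norm_num) (Nat.pow_le_pow_left K2 15)
  have Kp : ((K ^ 15 : ℕ) : ℝ) ≤ (n : ℝ) ^ (15 * min κ κ₁) := by
    rw [mul_comm, Real.rpow_mul (Nat.cast_nonneg _), Nat.cast_pow, ← Real.rpow_natCast]
    exact Real.rpow_le_rpow (Nat.cast_nonneg _) Kn (by norm_num)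
  obtain ⟨s, L, x, L', h⟩ := hN n (K ^ 15) ((le_max_left _ _).trans ((le_max_left _ _).trans hn))
    K16 (Kp.trans (Real.rpow_le_rpow_of_exponent_le n1' (by linarith [min_le_left κ κ₁])))
  have hf := hN' n (K ^ 15) _ ((le_max_right _ _).trans ((le_max_left _ _).trans hn))
    (min_le_right κ κ₁) Kp
  have wide : n ≤ K * (Γ.image Prod.fst).card := by
    classical
    have := hW.rd
    rcases W.eq_empty_or_nonempty with rfl | ⟨v, hv⟩
    · simp at this; omega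
    obtain ⟨N, h1, h2, -⟩ := hW.nb v hv
    exact h2.trans (Nat.mul_le_mul_left _ (card_le_card (image_subset_image h1)))
  have hW' := SETAA.wd hW KK
  have r : (K : ℝ) ≤ (K ^ 15 : ℕ) := by exact_mod_cast KK
  have ok : (ctx Γ n (K ^ 15)).OK := ⟨n1, K16, zb, fun a ha => (gb a ha).trans
    (mul_le_mul_of_nonneg_right r (Nat.cast_nonneg _)), wide.trans (Nat.mul_le_mul_right _ KK),
    rowFIB _ Γ T (AddMonoidHom.fst _ _) n K n1 K2 hT hΓ wide⟩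
  rw [pow_mul, ← Nat.cast_pow]
  generalize K ^ 15 = K' at *
  have K1 : (16 : ℝ) ≤ K' := by exact_mod_cast K16
  have l2 := line2B n1 (hL.mono le_rfl (Real.rpow_le_rpow_of_exponent_le n1' (min_le_left κ κ₁)))
  have lin := rowLIN rowADD (rowBASE rowBUILD) (rowRANK rowHU) _ _ _ ok J
    (3 * (J * (2 * m + 1)) + 10) x (by nlinarith) (by omega) h.x0 h.x1
    fun c hc => (depB S U Γ W n K' m J s _ _ L e ok hW' hS l2 le_rfl J1 h.L1 h.L0 h.tup h.pair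
      c hc).imp fun l hl => ⟨hl.1, hl.2.mono (le_trans (by norm_num) K16) (by omega) h.acc⟩
  obtain ⟨γ, g1, S', g2, g3⟩ := rowAVG _ _ _ ok (ex m J) _ h.avg
    fun c hc => lin c ⟨hc.1.le, hc.2.le⟩
  have x0 := h.x0
  have g4 : ‖cut S γ‖ ≤ (K' : ℝ) ^ (ex m J + 2) := (norm_cut S γ).trans g1
  have t2 := NUMA.two K' (ex m J) (by linarith)
  refine ⟨cut S γ, sup_cut S γ, g4.trans (pow_le_pow_right₀ (by linarith) (by omega)),
    fun v hv => (finT U Γ S' W n K' _ (K' + K' * K' ^ (ex m J + 2)) _ _ _ _ _ _ ok hW' hTop g4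
      ?_ g2 (fun σ hσ => ⟨(g3 σ hσ).1, (cut_dev ?_ _ _).trans (g3 σ hσ).2⟩) ?_ ?_ v hv).trans ?_⟩
  · push_cast; exact le_rfl
  · obtain ⟨a, ha, b, hb, rfl⟩ := (g3 σ hσ).1
    rw [map_sub]
    exact (hS a ha).sub (hS b hb)
  · refine le_trans ?_ h.out
    have a1 : (1 : ℝ) ≤ K' + K' * K' ^ (ex m J + 2) := by
      have : (0 : ℝ) ≤ K' * K' ^ (ex m J + 2) := by positivity
      linarith
    refine le_trans (le_mul_of_one_le_left ?_ a1) (le_mul_of_one_le_right ?_ h.L1')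
    · show (0 : ℝ) ≤ 2 * K' + K' * (2 * (2 * K' * n * ((18 * J + 2) * x) + K' ^ (ex m J + 3)))
      positivity
    · show (0 : ℝ) ≤ (K' + K' * K' ^ (ex m J + 2)) *
        (2 * K' + K' * (2 * (2 * K' * n * ((18 * J + 2) * x) + K' ^ (ex m J + 3))))
      positivity
  · have a1 := NUMA.fin K' _ (ex m J) (by linarith) hf
    have a2 : (0 : ℝ) < (n : ℝ) ^ e' := by positivity
    rw [Real.rpow_neg (by linarith)]
    push_cast
    have a3 := mul_lt_mul_of_pos_right a1 (show (0 : ℝ) < n * ((n : ℝ) ^ e')⁻¹ by positivity)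
    have a4 : (n : ℝ) ^ e' * (n * ((n : ℝ) ^ e')⁻¹) = n := by field_simp
    rw [a4] at a3
    refine lt_of_le_of_lt (le_of_eq ?_) a3
    ring
  · refine mul_le_mul_of_nonneg_right ?_ (by positivity)
    push_cast
    have a1 : (K' : ℝ) ^ (ex m J + 4) = K' * K' ^ (ex m J + 3) := by ring
    have a2 : (0 : ℝ) ≤ K' ^ (ex m J + 3) := by positivity
    rw [a1]
    nlinarith

end Pool.Agent.MP_5168f5_an.H75T
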