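import Pool.Agent.MP_5168f5_an.H17F.Defs
import Pool.Agent.MP_5168f5_an.H95F.Spec

/-! The sum-product step for two blocks of coordinates: the statements. -/

namespace Pool.Agent.MP_5168f5_an.H75T

open H19 H17S H17F H95F

variable {k : ℕ}

/-- `v` vanishes outside the block `S`. -/
def Sup (S : Set (Fin k)) (v : V k) : Prop := ∀ i, i ∉ S → v i = 0

/-- Level `q` of `U` at accuracy `μ` holds at most `bd` points of a segment with direction in `B`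
and length at least `lo`. -/
def Seg (B : V k → Prop) (U : Set (V k)) (n q : ℕ) (μ lo bd : ℝ) : Prop :=
  ∀ (v : V k) (T : Finset ℤ), B v → lo ≤ ‖v‖ → ‖v‖ ≤ n → T ⊆ Finset.Ico (0 : ℤ) n →
    (∀ t ∈ T, ∀ t' ∈ T, Nr U q μ ((((t : ℝ) - t') / n) • v)) → (T.card : ℝ) ≤ bd

/-- `Line` for directions in the block `S`. -/
def LineB (S : Set (Fin k)) (U : Set (V k)) (n q : ℕ) (L₀ e : ℝ) : Prop :=
  ∀ q' ≤ q, ∀ μ L : ℝ, 1 ≤ μ → L₀ ≤ L → Seg (Sup S) U n q' μ (μ * L) (n * L ^ (-e))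

/-- No dense part of a segment in the top window, for all directions. -/
def Top (U : Set (V k)) (n : ℕ) (c c' e' : ℝ) : Prop :=
  Seg (fun _ => True) U n 1 (n * (n : ℝ) ^ (-c)) (n * (n : ℝ) ^ (-c')) (n * (n : ℝ) ^ (-e'))

/-- The finite sum-product step when the vector part of `d` lies in a block. -/
def TieP : Prop := ∀ (N : ℕ) (e : ℝ), 0 < e → ∃ (q : ℕ) (c : ℝ), 0 < c ∧ ∀ c' e' : ℝ, 0 < c' →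
  0 < e' → ∃ c'' : ℝ, 0 < c'' ∧ ∀ ε : ℝ, 0 < ε →
  ∃ (R₀ : ℕ) (κ : ℝ), 0 < κ ∧ ∀ (R : ℕ) (Ω : Type) (P : FP Ω) (d w : Ω → ℤ × Z N)
    (S : Set (Fin N)) (U : Set (V N)) (L : ℝ), R₀ ≤ R → 1 ≤ L → L ≤ Real.exp (κ * R) →
    (∀ ω ∈ P.S, |((d ω).1 : ℝ)| ≤ 2 ^ R ∧ |((w ω).1 : ℝ)| ≤ 2 * 2 ^ R ∧
      ‖cz (d ω).2‖ ≤ L * 2 ^ R ∧ ‖cz (w ω).2‖ ≤ L * 2 ^ R) →
    (∀ ω ∈ P.S, Sup S (cz (d ω).2)) →
    pb P (fun ω => ¬∃ a ∈ U, ‖bil R (d ω) (w ω) - a‖ ≤ L) ≤ κ →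
    hh P d - ch P d w ≤ κ * R →
    R * lg - κ * R ≤ hh P (fun ω => (d ω).1) →
    R * lg - κ * R ≤ hh P (fun ω => (w ω).1) →
    LineB S U (2 ^ R) q (Real.exp (κ * R)) e → Top U (2 ^ R) c c' e' →
    pb P (fun ω => 2 ^ R * Real.exp (-(c'' * R)) < ‖bil R (d ω) (w ω)‖) ≤ ε

/-- `x` is near `qU - qU`, within `μ₂` in the block `S` and within `μ₁` outside. -/
def NrG (S : Set (Fin k)) (U : Set (V k)) (q : ℕ) (μ₁ μ₂ : ℝ) (x : V k) : Prop :=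
  ∃ a b : Fin q → V k, (∀ i, a i ∈ U ∧ b i ∈ U) ∧
    (∀ j, j ∉ S → |(x - ∑ i, (a i - b i)) j| ≤ μ₁) ∧ ∀ j ∈ S, |(x - ∑ i, (a i - b i)) j| ≤ μ₂

/-- No dense part of a long segment in one block, for boxes whose relative side outside `S` is
the power `ρ` of the relative side in `S`. -/
def GLine (S : Set (Fin k)) (ρ : ℝ) (U : Set (V k)) (n q : ℕ) (L₀ e : ℝ) : Prop :=
  ∀ q' ≤ q, ∀ (v : V k) (μ L : ℝ) (T : Finset ℤ), 1 ≤ μ → L₀ ≤ L →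
    (Sup S v ∧ μ * L ≤ ‖v‖ ∨ Sup Sᶜ v ∧ n * (μ / n) ^ ρ * L ≤ ‖v‖) → ‖v‖ ≤ n →
    T ⊆ Finset.Ico (0 : ℤ) n →
    (∀ t ∈ T, ∀ t' ∈ T, NrG S U q' (n * (μ / n) ^ ρ) μ ((((t : ℝ) - t') / n) • v)) →
    (T.card : ℝ) ≤ n * L ^ (-e)

/-- The finite sum-product step for two blocks of different weight. -/
def TieG : Prop := ∀ (N : ℕ) (e ρ : ℝ), 0 < e → 0 < ρ → ρ < 1 → ∃ (q : ℕ) (c : ℝ), 0 < c ∧
  ∀ ε : ℝ, 0 < ε →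
  ∃ (R₀ : ℕ) (κ : ℝ), 0 < κ ∧ ∀ (R : ℕ) (Ω : Type) (P : FP Ω) (d w : Ω → ℤ × Z N)
    (S : Set (Fin N)) (U : Set (V N)) (L : ℝ), R₀ ≤ R → 1 ≤ L → L ≤ Real.exp (κ * R) →
    (∀ ω ∈ P.S, |((d ω).1 : ℝ)| ≤ 2 ^ R ∧ |((w ω).1 : ℝ)| ≤ 2 * 2 ^ R ∧
      ‖cz (d ω).2‖ ≤ L * 2 ^ R ∧ ‖cz (w ω).2‖ ≤ L * 2 ^ R) →
    (∀ ω ∈ P.S, Sup S (cz (d ω).2)) →
    pb P (fun ω => ¬∃ a ∈ U, ‖bil R (d ω) (w ω) - a‖ ≤ L) ≤ κ →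
    hh P d - ch P d w ≤ κ * R →
    R * lg - κ * R ≤ hh P (fun ω => (d ω).1) →
    R * lg - κ * R ≤ hh P (fun ω => (w ω).1) →
    GLine S ρ U (2 ^ R) q (Real.exp (κ * R)) e →
    pb P (fun ω => 2 ^ R * Real.exp (-(c * R)) < ‖bil R (d ω) (w ω)‖) ≤ ε

end Pool.Agent.MP_5168f5_an.H75T
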